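import Pool.Agent.H33.Exp.W

open Finset Complex Real Filter

namespace Pool.Agent.H33

lemma W_all (i : ℕ) : WProp i := by
  induction i with
  | zero => exact W_zero
  | succ i ih => exact W_succ i ih

/-- Power saving for `∑ ee (N / n)`. -/
theorem W1 (C : ℝ) (K : ℕ) (hK : 1 ≤ K) : ∃ η : ℝ, 0 < η ∧ η ≤ 1 ∧ ∃ X0 : ℝ, 1 ≤ X0 ∧
    ∀ X : ℝ, X0 ≤ X → ∀ N : ℝ, X ^ (17 / 16 : ℝ) ≤ N → N ≤ X ^ C →
      ∀ a b : ℕ, X ≤ a → (b : ℝ) ≤ K * X → ‖∑ n ∈ Ico a b, ee (N / n)‖ ≤ X ^ (1 - η) := by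
  obtain ⟨i, hi⟩ := exists_nat_ge (C / (3 / 4))
  obtain ⟨η, hη, ev⟩ := W_all i 1 1 K le_rfl le_rfl hK
  rw [eventually_atTop] at ev
  obtain ⟨X1, hX1⟩ := ev
  refine ⟨min η 1, lt_min hη one_pos, min_le_right _ _, max X1 1, le_max_right _ _, ?_⟩
  intro X hX N hN1 hN2 a b ha hb
  have hX1' : X1 ≤ X := (le_max_left _ _).trans hX
  have hX1'' : 1 ≤ X := (le_max_right _ _).trans hX
  have hcls : Cls 1 1 0 [[(0 : ℝ)]] := by
    refine ⟨rfl, ?_⟩
    intro l hl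
    rw [List.mem_singleton] at hl
    subst hl
    refine ⟨rfl, ?_⟩
    intro a ha
    rw [List.mem_singleton] at ha
    subst ha
    exact ⟨le_rfl, le_rfl⟩
  have hg : ∀ n : ℕ, N / (n : ℝ) = N * gS [[(0 : ℝ)]] (n : ℝ) := by
    intro n
    simp [gS, pInv, div_eq_mul_inv]
  have h := hX1 X hX1' [[(0 : ℝ)]] 0 le_rfl (by positivity) hcls N ?_ ?_ a b ha hb
  · simp only [hg]
    refine h.trans ?_
    apply Real.rpow_le_rpow_of_exponent_le hX1''
    linarith [min_le_left η 1]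
  · have : ((1 : ℕ) : ℝ) + 1 / 16 = 17 / 16 := by norm_num
    rw [this]
    exact hN1
  · refine hN2.trans ?_
    apply Real.rpow_le_rpow_of_exponent_le hX1''
    have : C ≤ 3 / 4 * i := by
      have := (div_le_iff₀ (by norm_num : (0 : ℝ) < 3 / 4)).mp hi
      linarith
    push_cast
    linarith

end Pool.Agent.H33
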