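import Pool.Agent.H33.Exp.VdC

/-!
The class of functions `x ↦ ∑_i ∏_j (x + a_{ij})⁻¹`, closed under (minus) differencing.
-/

open Finset Complex Real

namespace Pool.Agent.H33

/-- `∏ (x + a)⁻¹` over the list. -/
noncomputable def pInv (l : List ℝ) (x : ℝ) : ℝ := (l.map fun a => (x + a)⁻¹).prod

/-- Sum of such products. -/
noncomputable def gS (L : List (List ℝ)) (x : ℝ) : ℝ := (L.map fun l => pInv l x).sum

/-- The list of products obtained by differencing one product. -/
noncomputable def dl (h : ℝ) : List ℝ → List (List ℝ)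
  | [] => []
  | a :: t => (dl h t).map (fun l => a :: l) ++ [a :: (a + h) :: t.map (fun b => b + h)]

/-- The list of products obtained by differencing a sum of products. -/
noncomputable def dL (h : ℝ) : List (List ℝ) → List (List ℝ)
  | [] => []
  | l :: L => dl h l ++ dL h L

/-- `L` has `c` products, each with `m` factors with shifts in `[0, A]`. -/
def Cls (m c : ℕ) (A : ℝ) (L : List (List ℝ)) : Prop :=
  L.length = c ∧ ∀ l ∈ L, l.length = m ∧ ∀ a ∈ l, 0 ≤ a ∧ a ≤ A

lemma gS_append (L L' : List (List ℝ)) (x : ℝ) : gS (L ++ L') x = gS L x + gS L' x := by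
  simp [gS]

lemma gS_map_cons (L : List (List ℝ)) (a x : ℝ) :
    gS (L.map (fun l => a :: l)) x = (x + a)⁻¹ * gS L x := by
  induction L with
  | nil => simp [gS]
  | cons l L ih =>
    have : gS ((l :: L).map (fun l => a :: l)) x
        = (x + a)⁻¹ * pInv l x + gS (L.map (fun l => a :: l)) x := by
      simp [gS, pInv]
    rw [this, ih]
    simp [gS]
    ring

lemma pInv_map_add (t : List ℝ) (h x : ℝ) :
    pInv (t.map (fun b => b + h)) x = pInv t (x + h) := by
  induction t with
  | nil => simp [pInv]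
  | cons b t ih =>
    have e1 : pInv ((b :: t).map (fun b => b + h)) x
        = (x + (b + h))⁻¹ * pInv (t.map (fun b => b + h)) x := by
      simp [pInv]
    have e2 : pInv (b :: t) (x + h) = (x + h + b)⁻¹ * pInv t (x + h) := by
      simp [pInv]
    rw [e1, e2, ih]
    congr 2
    ring

lemma pInv_diff (h x : ℝ) (hx : 0 < x) (hh : 0 ≤ h) :
    ∀ l : List ℝ, (∀ a ∈ l, 0 ≤ a) → pInv l x - pInv l (x + h) = h * gS (dl h l) x := by
  intro l
  induction l with
  | nil =>
    intro _
    simp [pInv, gS, dl]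
  | cons a t ih =>
    intro hl
    have ha : 0 ≤ a := hl a (by simp)
    have iht := ih (fun b hb => hl b (by simp [hb]))
    have e1 : pInv (a :: t) x = (x + a)⁻¹ * pInv t x := by simp [pInv]
    have e2 : pInv (a :: t) (x + h) = (x + h + a)⁻¹ * pInv t (x + h) := by simp [pInv]
    have e3 : gS (dl h (a :: t)) x = (x + a)⁻¹ * gS (dl h t) x
        + (x + a)⁻¹ * ((x + (a + h))⁻¹ * pInv t (x + h)) := by
      rw [dl, gS_append, gS_map_cons]
      congr 1
      have : gS [a :: (a + h) :: t.map (fun b => b + h)] x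
          = (x + a)⁻¹ * ((x + (a + h))⁻¹ * pInv (t.map (fun b => b + h)) x) := by
        simp [gS, pInv]
      rw [this, pInv_map_add]
    rw [e1, e2, e3]
    have hxa : x + a ≠ 0 := by positivity
    have hxa' : x + h + a ≠ 0 := by positivity
    have hxa'' : x + (a + h) = x + h + a := by ring
    rw [hxa'']
    have e4 : (x + h + a)⁻¹ = (x + a)⁻¹ - h * ((x + a)⁻¹ * (x + h + a)⁻¹) := by
      field_simp
      ring
    have : (x + a)⁻¹ * pInv t x - (x + h + a)⁻¹ * pInv t (x + h)
        = (x + a)⁻¹ * (pInv t x - pInv t (x + h))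
          + ((x + a)⁻¹ - (x + h + a)⁻¹) * pInv t (x + h) := by ring
    rw [this, iht]
    have e5 : (x + a)⁻¹ - (x + h + a)⁻¹ = h * ((x + a)⁻¹ * (x + h + a)⁻¹) := by
      linarith [e4]
    rw [e5]
    ring

lemma gS_diff (h x : ℝ) (hx : 0 < x) (hh : 0 ≤ h) :
    ∀ L : List (List ℝ), (∀ l ∈ L, ∀ a ∈ l, 0 ≤ a) →
      gS L x - gS L (x + h) = h * gS (dL h L) x := by
  intro L
  induction L with
  | nil =>
    intro _
    simp [gS, dL]
  | cons l L ih =>
    intro hl
    have ih' := ih (fun l' hl' => hl l' (by simp [hl']))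
    have h1 := pInv_diff h x hx hh l (hl l (by simp))
    have e1 : gS (l :: L) x = pInv l x + gS L x := by simp [gS]
    have e2 : gS (l :: L) (x + h) = pInv l (x + h) + gS L (x + h) := by simp [gS]
    rw [e1, e2, dL, gS_append]
    linarith

lemma dl_spec (h : ℝ) (hh : 0 ≤ h) (A : ℝ) : ∀ l : List ℝ, (∀ a ∈ l, 0 ≤ a ∧ a ≤ A) →
    (dl h l).length = l.length ∧
      ∀ l' ∈ dl h l, l'.length = l.length + 1 ∧ ∀ a ∈ l', 0 ≤ a ∧ a ≤ A + h := by
  intro l
  induction l with
  | nil =>
    intro _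
    simp [dl]
  | cons a t ih =>
    intro hl
    have ha := hl a (by simp)
    have ht : ∀ b ∈ t, 0 ≤ b ∧ b ≤ A := fun b hb => hl b (by simp [hb])
    obtain ⟨i1, i2⟩ := ih ht
    refine ⟨by simp [dl, i1], ?_⟩
    intro l' hl'
    rw [dl, List.mem_append] at hl'
    rcases hl' with hl' | hl'
    · rw [List.mem_map] at hl'
      obtain ⟨l'', hl'', rfl⟩ := hl'
      obtain ⟨j1, j2⟩ := i2 l'' hl''
      refine ⟨by simp [j1], ?_⟩
      intro b hb
      rw [List.mem_cons] at hb
      rcases hb with rfl | hb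
      · exact ⟨ha.1, by linarith [ha.2]⟩
      · exact j2 b hb
    · rw [List.mem_singleton] at hl'
      subst hl'
      refine ⟨by simp, ?_⟩
      intro b hb
      rw [List.mem_cons, List.mem_cons, List.mem_map] at hb
      rcases hb with rfl | rfl | ⟨c, hc, rfl⟩
      · exact ⟨ha.1, by linarith [ha.2]⟩
      · exact ⟨by linarith [ha.1], by linarith [ha.2]⟩
      · have := ht c hc
        exact ⟨by linarith [this.1], by linarith [this.2]⟩

lemma dL_spec {m c : ℕ} {A : ℝ} {L : List (List ℝ)} (hL : Cls m c A L) {h : ℝ} (hh : 0 ≤ h) :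
    Cls (m + 1) (c * m) (A + h) (dL h L) := by
  induction L generalizing c with
  | nil =>
    obtain ⟨h1, _⟩ := hL
    simp only [List.length_nil] at h1
    subst h1
    simp [dL, Cls]
  | cons l L ih =>
    obtain ⟨h1, h2⟩ := hL
    simp only [List.length_cons] at h1
    have hL' : Cls m (c - 1) A L := ⟨by omega, fun l' hl' => h2 l' (by simp [hl'])⟩
    obtain ⟨i1, i2⟩ := ih hL'
    have hl := h2 l (by simp)
    obtain ⟨j1, j2⟩ := dl_spec h hh A l hl.2
    refine ⟨?_, ?_⟩
    · rw [dL, List.length_append, j1, i1, hl.1]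
      obtain ⟨c', rfl⟩ : ∃ c', c = c' + 1 := ⟨c - 1, by omega⟩
      simp only [Nat.add_sub_cancel]
      ring
    · intro l' hl'
      rw [dL, List.mem_append] at hl'
      rcases hl' with hl' | hl'
      · have := j2 l' hl'
        rw [hl.1] at this
        exact this
      · exact i2 l' hl'

lemma pInv_bounds {A x : ℝ} (hx : 0 < x) : ∀ l : List ℝ, (∀ a ∈ l, 0 ≤ a ∧ a ≤ A) →
    ((x + A)⁻¹) ^ l.length ≤ pInv l x ∧ pInv l x ≤ (x⁻¹) ^ l.length := by
  intro l
  induction l with
  | nil =>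
    intro _
    simp [pInv]
  | cons a t ih =>
    intro hl
    have ha := hl a (by simp)
    obtain ⟨i1, i2⟩ := ih (fun b hb => hl b (by simp [hb]))
    have e1 : pInv (a :: t) x = (x + a)⁻¹ * pInv t x := by simp [pInv]
    have hxa : 0 < x + a := by linarith [ha.1]
    have hxA : 0 < x + A := by linarith [ha.1, ha.2]
    have b1 : (x + A)⁻¹ ≤ (x + a)⁻¹ := inv_anti₀ hxa (by linarith [ha.2])
    have b2 : (x + a)⁻¹ ≤ x⁻¹ := inv_anti₀ hx (by linarith [ha.1])
    have p0 : 0 ≤ pInv t x := le_trans (by positivity) i1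
    rw [e1, List.length_cons, pow_succ', pow_succ']
    constructor
    · exact mul_le_mul b1 i1 (by positivity) (by positivity)
    · exact mul_le_mul b2 i2 p0 (by positivity)

lemma gS_bounds {m c : ℕ} {A x : ℝ} {L : List (List ℝ)} (hL : Cls m c A L) (hx : 0 < x) :
    (c : ℝ) * ((x + A)⁻¹) ^ m ≤ gS L x ∧ gS L x ≤ (c : ℝ) * (x⁻¹) ^ m := by
  induction L generalizing c with
  | nil =>
    obtain ⟨h1, _⟩ := hL
    simp only [List.length_nil] at h1
    subst h1
    simp [gS]
  | cons l L ih =>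
    obtain ⟨h1, h2⟩ := hL
    simp only [List.length_cons] at h1
    obtain ⟨c', rfl⟩ : ∃ c', c = c' + 1 := ⟨c - 1, by omega⟩
    have hL' : Cls m c' A L := ⟨by omega, fun l' hl' => h2 l' (by simp [hl'])⟩
    obtain ⟨i1, i2⟩ := ih hL'
    have hl := h2 l (by simp)
    obtain ⟨j1, j2⟩ := pInv_bounds hx l hl.2
    rw [hl.1] at j1 j2
    have e1 : gS (l :: L) x = pInv l x + gS L x := by simp [gS]
    rw [e1]
    push_cast
    constructor <;> nlinarith

lemma gS_nonneg {m c : ℕ} {A x : ℝ} {L : List (List ℝ)} (hL : Cls m c A L) (hx : 0 < x)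
    (hA : 0 ≤ A) : 0 ≤ gS L x := by
  have := (gS_bounds hL hx).1
  have h2 : 0 ≤ (c : ℝ) * ((x + A)⁻¹) ^ m := by positivity
  linarith

lemma gS_antitone {m c : ℕ} {A x h : ℝ} {L : List (List ℝ)} (hL : Cls m c A L) (hx : 0 < x)
    (hA : 0 ≤ A) (hh : 0 ≤ h) : gS L (x + h) ≤ gS L x := by
  have h1 := gS_diff h x hx hh L (fun l hl a ha => ((hL.2 l hl).2 a ha).1)
  have h2 := gS_nonneg (dL_spec hL hh) hx (by linarith)
  have h3 : 0 ≤ h * gS (dL h L) x := by positivity
  linarith

end Pool.Agent.H33
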