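import Pool.Agent.H33.Exp.PrimeSum

open Finset Complex Real Filter ArithmeticFunction

namespace Pool.Agent.H33

lemma ee_re (x : ℝ) : (ee x).re = Real.cos (2 * π * x) := by
  unfold ee
  rw [mul_comm, Complex.exp_ofReal_mul_I_re]

lemma ee_im (x : ℝ) : (ee x).im = Real.sin (2 * π * x) := by
  unfold ee
  rw [mul_comm, Complex.exp_ofReal_mul_I_im]

/-- cosine sum over primes in `(P, 8P]` -/
noncomputable def cS (P : ℕ) (N : ℝ) : ℝ := ∑ p ∈ prS P, Real.log p * Real.cos (2 * π * (N / p))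

/-- sine sum over primes in `(P, 8P]` -/
noncomputable def sS (P : ℕ) (N : ℝ) : ℝ := ∑ p ∈ prS P, Real.log p * Real.sin (2 * π * (N / p))

lemma cS_eq (P : ℕ) (N : ℝ) : cS P N = (∑ p ∈ prS P, ((Real.log p : ℝ) : ℂ) * ee (N / p)).re := by
  rw [Complex.re_sum]
  unfold cS
  apply sum_congr rfl
  intro p _
  rw [Complex.re_ofReal_mul, ee_re]

lemma sS_eq (P : ℕ) (N : ℝ) : sS P N = (∑ p ∈ prS P, ((Real.log p : ℝ) : ℂ) * ee (N / p)).im := by
  rw [Complex.im_sum]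
  unfold sS
  apply sum_congr rfl
  intro p _
  rw [Complex.im_ofReal_mul, ee_im]

lemma sin_mul_sin' (a b : ℝ) : Real.sin a * Real.sin b = (Real.cos (a - b) - Real.cos (a + b)) / 2 := by
  rw [Real.cos_sub, Real.cos_add]
  ring

lemma tsq_identity (A B : ℝ) : (Real.sin A + Real.sin (B - A) - Real.sin B) ^ 2
    = 3 / 2 - (1 / 2) * (Real.cos (2 * A) + Real.cos (2 * (B - A)) + Real.cos (2 * B))
      + Real.cos (2 * A - B) - Real.cos B - Real.cos (A - B) + Real.cos (A + B) - Real.cos A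
      + Real.cos (2 * B - A) := by
  have h1 := sin_mul_sin' A A
  have h2 := sin_mul_sin' (B - A) (B - A)
  have h3 := sin_mul_sin' B B
  have h4 := sin_mul_sin' A (B - A)
  have h5 := sin_mul_sin' A B
  have h6 := sin_mul_sin' B (B - A)
  rw [sub_self, Real.cos_zero, ← two_mul] at h1 h2 h3
  rw [show A - (B - A) = 2 * A - B by ring, show A + (B - A) = B by ring] at h4
  rw [show B - (B - A) = A by ring, show B + (B - A) = 2 * B - A by ring] at h6
  linear_combination h1 + h2 + h3 + 2 * h4 - 2 * h5 - 2 * h6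

lemma four_sin (a b : ℝ) : Real.sin (2 * a) + Real.sin (2 * (b - a)) - Real.sin (2 * b)
    = 4 * (Real.sin a * Real.sin b * Real.sin (b - a)) := by
  have h1 := Real.sin_sq_add_cos_sq a
  have h2 := Real.sin_sq_add_cos_sq b
  rw [Real.sin_two_mul, Real.sin_two_mul, Real.sin_two_mul, Real.sin_sub, Real.cos_sub]
  have ha : Real.cos a ^ 2 = 1 - Real.sin a ^ 2 := by linarith
  have hb : Real.cos b ^ 2 = 1 - Real.sin b ^ 2 := by linarith
  ring_nf
  rw [ha, hb]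
  ring

lemma t_nonpos (p u M : ℕ) (hp : 0 < p) (h : M % p ≤ u % p) :
    Real.sin (2 * π * ((u : ℝ) / p)) + Real.sin (2 * π * (((M : ℝ) - u) / p))
      - Real.sin (2 * π * ((M : ℝ) / p)) ≤ 0 := by
  have hp0 : (0 : ℝ) < p := by exact_mod_cast hp
  set a := u % p with ha
  set b := M % p with hb
  have hap : a < p := Nat.mod_lt _ hp
  obtain ⟨q1, hq1⟩ : ∃ q1, q1 = u / p := ⟨_, rfl⟩
  obtain ⟨q2, hq2⟩ : ∃ q2, q2 = M / p := ⟨_, rfl⟩
  have hu : (u : ℝ) = a + p * (q1 : ℝ) := by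
    have := Nat.mod_add_div u p
    rw [← ha, ← hq1] at this
    exact_mod_cast this.symm
  have hM : (M : ℝ) = b + p * (q2 : ℝ) := by
    have := Nat.mod_add_div M p
    rw [← hb, ← hq2] at this
    exact_mod_cast this.symm
  have e1 : 2 * π * ((u : ℝ) / p) = 2 * (π * (a / p)) + (q1 : ℝ) * (2 * π) := by
    rw [hu]
    field_simp
  have e3 : 2 * π * ((M : ℝ) / p) = 2 * (π * (b / p)) + (q2 : ℝ) * (2 * π) := by
    rw [hM]
    field_simp
  have e2 : 2 * π * (((M : ℝ) - u) / p) = 2 * (π * (b / p) - π * (a / p))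
      + (((q2 : ℤ) - (q1 : ℤ) : ℤ) : ℝ) * (2 * π) := by
    have : 2 * π * (((M : ℝ) - u) / p) = 2 * π * ((M : ℝ) / p) - 2 * π * ((u : ℝ) / p) := by
      ring
    rw [this, e1, e3]
    push_cast
    ring
  rw [e1, e2, e3, Real.sin_add_nat_mul_two_pi, Real.sin_add_int_mul_two_pi,
    Real.sin_add_nat_mul_two_pi, four_sin]
  have hpi := Real.pi_pos
  have ha1 : (a : ℝ) / p < 1 := by
    rw [div_lt_one hp0]
    exact_mod_cast hap
  have hba : (b : ℝ) / p ≤ a / p := by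
    apply div_le_div_of_nonneg_right _ hp0.le
    exact_mod_cast h
  have hb0 : 0 ≤ (b : ℝ) / p := by positivity
  have ha0 : 0 ≤ (a : ℝ) / p := by positivity
  have s1 : 0 ≤ Real.sin (π * (a / p)) := by
    apply Real.sin_nonneg_of_nonneg_of_le_pi (by positivity)
    nlinarith
  have s2 : 0 ≤ Real.sin (π * (b / p)) := by
    apply Real.sin_nonneg_of_nonneg_of_le_pi (by positivity)
    nlinarith
  have s3 : Real.sin (π * (b / p) - π * (a / p)) ≤ 0 := by
    apply Real.sin_nonpos_of_nonpos_of_neg_pi_le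
    · nlinarith
    · nlinarith
  have : 0 ≤ Real.sin (π * (a / p)) * Real.sin (π * (b / p)) := mul_nonneg s1 s2
  nlinarith

/-- For large `P`, there is a prime `p` in `(P, 8P]` with `u mod p < M mod p`, whenever
`P^(3/2) ≤ M`, `3 M ≤ u` and `2 u ≤ P^C`. -/
theorem digit (C : ℝ) (hC : 0 ≤ C) : ∀ᶠ P : ℕ in atTop, ∀ u M : ℕ,
    (P : ℝ) ^ (3 / 2 : ℝ) ≤ M → 3 * M ≤ u → 2 * (u : ℝ) ≤ (P : ℝ) ^ C →
      ∃ p : ℕ, p.Prime ∧ P < p ∧ p ≤ 8 * P ∧ u % p < M % p := by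
  filter_upwards [prime_sum C hC, Theta_ge, eventually_ge_atTop 1] with P hsum hTheta hP
  intro u M hM hu hu2
  by_contra hcon
  push Not at hcon
  have hPr : (1 : ℝ) ≤ P := by exact_mod_cast hP
  have hP0 : (0 : ℝ) < P := by linarith
  have hur : 3 * (M : ℝ) ≤ u := by exact_mod_cast hu
  have hM0 : (0 : ℝ) ≤ M := Nat.cast_nonneg M
  have hcs : ∀ N : ℝ, (P : ℝ) ^ (3 / 2 : ℝ) ≤ N → N ≤ (P : ℝ) ^ C →
      |cS P N| ≤ P / 100 ∧ |sS P N| ≤ P / 100 := by
    intro N h1 h2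
    have h := hsum N h1 h2
    rw [cS_eq, sS_eq]
    exact ⟨(Complex.abs_re_le_norm _).trans h, (Complex.abs_im_le_norm _).trans h⟩
  -- pointwise facts
  have hlog0 : ∀ p ∈ prS P, 0 ≤ Real.log p := fun p _ => Real.log_natCast_nonneg p
  set t : ℕ → ℝ := fun p => Real.sin (2 * π * ((u : ℝ) / p)) + Real.sin (2 * π * (((M : ℝ) - u) / p))
      - Real.sin (2 * π * ((M : ℝ) / p)) with ht
  have ht0 : ∀ p ∈ prS P, t p ≤ 0 := by
    intro p hp
    unfold prS at hp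
    rw [mem_filter, mem_Ioc] at hp
    exact t_nonpos p u M (by omega) (hcon p hp.2 hp.1.1 hp.1.2)
  have ht4 : ∀ p, -4 ≤ t p := by
    intro p
    have h1 := Real.neg_one_le_sin (2 * π * ((u : ℝ) / p))
    have h2 := Real.neg_one_le_sin (2 * π * (((M : ℝ) - u) / p))
    have h3 := Real.sin_le_one (2 * π * ((M : ℝ) / p))
    simp only [ht]
    linarith
  have hsum1 : ∑ p ∈ prS P, Real.log p * t p ^ 2 ≤ -4 * ∑ p ∈ prS P, Real.log p * t p := by
    rw [mul_sum]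
    apply sum_le_sum
    intro p hp
    have h1 := hlog0 p hp
    have h2 := ht0 p hp
    have h3 := ht4 p
    have h4 : t p ^ 2 ≤ -4 * t p := by nlinarith
    nlinarith
  have hT : ∑ p ∈ prS P, Real.log p * t p = sS P u - sS P ((u : ℝ) - M) - sS P M := by
    unfold sS
    rw [← sum_sub_distrib, ← sum_sub_distrib]
    apply sum_congr rfl
    intro p _
    simp only [ht]
    have : 2 * π * (((M : ℝ) - u) / p) = -(2 * π * (((u : ℝ) - M) / p)) := by ring
    rw [this, Real.sin_neg]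
    ring
  have hTsq : ∑ p ∈ prS P, Real.log p * t p ^ 2
      = 3 / 2 * (∑ p ∈ prS P, Real.log p)
        - (1 / 2) * (cS P (2 * u) + cS P (2 * ((u : ℝ) - M)) + cS P (2 * M))
        + cS P (2 * u - M) - cS P M - cS P ((u : ℝ) - M) + cS P ((u : ℝ) + M) - cS P u
        + cS P ((u : ℝ) - 2 * M) := by
    unfold cS
    rw [mul_sum, mul_add, mul_add, mul_sum, mul_sum, mul_sum, ← sum_add_distrib, ← sum_add_distrib,
      ← sum_sub_distrib, ← sum_add_distrib, ← sum_sub_distrib, ← sum_sub_distrib,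
      ← sum_add_distrib, ← sum_sub_distrib, ← sum_add_distrib]
    apply sum_congr rfl
    intro p _
    have h := tsq_identity (2 * π * ((u : ℝ) / p)) (2 * π * ((M : ℝ) / p))
    have e1 : 2 * π * ((M : ℝ) / p) - 2 * π * ((u : ℝ) / p) = 2 * π * (((M : ℝ) - u) / p) := by ring
    have e2 : 2 * (2 * π * ((u : ℝ) / p)) = 2 * π * ((2 * (u : ℝ)) / p) := by ring
    have e3 : 2 * (2 * π * (((M : ℝ) - u) / p)) = -(2 * π * ((2 * ((u : ℝ) - M)) / p)) := by ring
    have e4 : 2 * (2 * π * ((M : ℝ) / p)) = 2 * π * ((2 * (M : ℝ)) / p) := by ring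
    have e5 : 2 * π * ((2 * (u : ℝ)) / p) - 2 * π * ((M : ℝ) / p) = 2 * π * ((2 * (u : ℝ) - M) / p) := by
      ring
    have e6 : 2 * π * ((u : ℝ) / p) - 2 * π * ((M : ℝ) / p) = 2 * π * (((u : ℝ) - M) / p) := by ring
    have e7 : 2 * π * ((u : ℝ) / p) + 2 * π * ((M : ℝ) / p) = 2 * π * (((u : ℝ) + M) / p) := by ring
    have e8 : 2 * π * ((2 * (M : ℝ)) / p) - 2 * π * ((u : ℝ) / p)
        = -(2 * π * (((u : ℝ) - 2 * M) / p)) := by ring
    rw [e1, e2, e3, e4, e5, e6, e7, e8, Real.cos_neg, Real.cos_neg] at h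
    simp only [ht]
    rw [h]
    ring
  -- bounds
  have hPC : 2 * (u : ℝ) ≤ (P : ℝ) ^ C := hu2
  obtain ⟨_, b1⟩ := hcs u (by linarith) (by linarith)
  obtain ⟨_, b2⟩ := hcs ((u : ℝ) - M) (by linarith) (by linarith)
  obtain ⟨_, b3⟩ := hcs M (by linarith) (by linarith)
  obtain ⟨c1, _⟩ := hcs (2 * u) (by linarith) (by linarith)
  obtain ⟨c2, _⟩ := hcs (2 * ((u : ℝ) - M)) (by linarith) (by linarith)
  obtain ⟨c3, _⟩ := hcs (2 * M) (by linarith) (by linarith)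
  obtain ⟨c4, _⟩ := hcs (2 * u - M) (by linarith) (by linarith)
  obtain ⟨c5, _⟩ := hcs M (by linarith) (by linarith)
  obtain ⟨c6, _⟩ := hcs ((u : ℝ) - M) (by linarith) (by linarith)
  obtain ⟨c7, _⟩ := hcs ((u : ℝ) + M) (by linarith) (by linarith)
  obtain ⟨c8, _⟩ := hcs u (by linarith) (by linarith)
  obtain ⟨c9, _⟩ := hcs ((u : ℝ) - 2 * M) (by linarith) (by linarith)
  rw [hTsq, hT] at hsum1
  rw [abs_le] at b1 b2 b3 c1 c2 c3 c4 c5 c6 c7 c8 c9
  linarith [b1.1, b1.2, b2.1, b2.2, b3.1, b3.2, c1.1, c1.2, c2.1, c2.2, c3.1, c3.2, c4.1, c4.2,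
    c5.1, c5.2, c6.1, c6.2, c7.1, c7.2, c8.1, c8.2, c9.1, c9.2]

end Pool.Agent.H33
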