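import Mathlib

/-!
Elementary estimates for exponential sums: the function `ee x = exp (2 π i x)` and the
Kusmin-Landau inequality.
-/

open Finset Complex Real

namespace Pool.Agent.H33

/-- `ee x = exp (2 π i x)`. -/
noncomputable def ee (x : ℝ) : ℂ := Complex.exp (Complex.I * ((2 * π * x : ℝ) : ℂ))

lemma norm_ee (x : ℝ) : ‖ee x‖ = 1 := by
  unfold ee
  rw [mul_comm]
  exact Complex.norm_exp_ofReal_mul_I _

lemma ee_ne_zero (x : ℝ) : ee x ≠ 0 := by
  unfold ee
  exact Complex.exp_ne_zero _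

lemma ee_add (x y : ℝ) : ee (x + y) = ee x * ee y := by
  unfold ee
  rw [← Complex.exp_add]
  congr 1
  push_cast
  ring

lemma ee_zero : ee 0 = 1 := by
  unfold ee
  simp

lemma ee_neg (x : ℝ) : ee (-x) = (starRingEnd ℂ) (ee x) := by
  unfold ee
  rw [← Complex.exp_conj, map_mul, Complex.conj_I, Complex.conj_ofReal]
  congr 1
  push_cast
  ring

lemma ee_sub (x y : ℝ) : ee (x - y) = ee x * (starRingEnd ℂ) (ee y) := by
  rw [sub_eq_add_neg, ee_add, ee_neg]

lemma norm_one_sub_ee (x : ℝ) : ‖1 - ee x‖ = 2 * |Real.sin (π * x)| := by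
  unfold ee
  rw [norm_sub_rev, Complex.norm_exp_I_mul_ofReal_sub_one, Real.norm_eq_abs, abs_mul, abs_two]
  congr 3
  ring

lemma norm_one_sub_ee_ge {x : ℝ} (h0 : 0 ≤ x) (h1 : x ≤ 1 / 2) : 4 * x ≤ ‖1 - ee x‖ := by
  rw [norm_one_sub_ee]
  have hpi := Real.pi_pos
  have h2 : 2 / π * (π * x) ≤ Real.sin (π * x) :=
    Real.mul_le_sin (by positivity) (by nlinarith)
  have h3 : 2 / π * (π * x) = 2 * x := by field_simp
  have h4 : Real.sin (π * x) ≤ |Real.sin (π * x)| := le_abs_self _
  linarith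

lemma norm_ee_sub_ee_le (x y : ℝ) : ‖ee x - ee y‖ ≤ 2 * π * |x - y| := by
  have h : ee x - ee y = ee y * (ee (x - y) - 1) := by
    rw [mul_sub, ← ee_add]
    simp
  rw [h, norm_mul, norm_ee, one_mul, norm_sub_rev, norm_one_sub_ee]
  have h2 : |Real.sin (π * (x - y))| ≤ |π * (x - y)| := Real.abs_sin_le_abs
  rw [abs_mul, abs_of_pos Real.pi_pos] at h2
  linarith

lemma inv_sub_bound {x y l : ℝ} (hl : 0 < l) (hx : l ≤ x) (hxy : x ≤ y) (hy : y ≤ 1 / 2) :
    ‖(1 - ee x)⁻¹ - (1 - ee y)⁻¹‖ ≤ π / 8 * (1 / x - 1 / y) := by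
  have hx0 : 0 < x := lt_of_lt_of_le hl hx
  have hy0 : 0 < y := lt_of_lt_of_le hx0 hxy
  have h1 := norm_one_sub_ee_ge hx0.le (hxy.trans hy)
  have h2 := norm_one_sub_ee_ge hy0.le hy
  have hne1 : (1 - ee x) ≠ 0 := by
    intro h
    rw [h, norm_zero] at h1
    linarith
  have hne2 : (1 - ee y) ≠ 0 := by
    intro h
    rw [h, norm_zero] at h2
    linarith
  rw [inv_sub_inv hne1 hne2, norm_div, norm_mul]
  have h3 : ‖1 - ee y - (1 - ee x)‖ ≤ 2 * π * (y - x) := by
    have : 1 - ee y - (1 - ee x) = ee x - ee y := by ring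
    rw [this]
    refine (norm_ee_sub_ee_le x y).trans ?_
    rw [abs_sub_comm, abs_of_nonneg (by linarith)]
  have hpos : 0 < ‖1 - ee x‖ * ‖1 - ee y‖ := by
    apply mul_pos <;> linarith
  rw [div_le_iff₀ hpos]
  have h4 : 16 * (x * y) ≤ ‖1 - ee x‖ * ‖1 - ee y‖ := by
    have := mul_le_mul h1 h2 (by positivity) (norm_nonneg _)
    linarith
  have h5 : 0 ≤ π / 8 * (1 / x - 1 / y) := by
    apply mul_nonneg (by positivity)
    rw [sub_nonneg]
    exact one_div_le_one_div_of_le hx0 hxy
  calc ‖1 - ee y - (1 - ee x)‖ ≤ 2 * π * (y - x) := h3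
    _ = π / 8 * (1 / x - 1 / y) * (16 * (x * y)) := by
        field_simp
        ring
    _ ≤ _ := mul_le_mul_of_nonneg_left h4 h5

/-- Kusmin-Landau inequality for a sequence whose increments decrease and lie in `[l, 1/2]`. -/
theorem kusmin_landau (g : ℕ → ℝ) (k : ℕ) {l : ℝ} (hl : 0 < l)
    (h1 : ∀ n < k, l ≤ g (n + 1) - g n) (h2 : ∀ n < k, g (n + 1) - g n ≤ 1 / 2)
    (h3 : ∀ n, n + 1 < k → g (n + 2) - g (n + 1) ≤ g (n + 1) - g n) :
    ‖∑ n ∈ range k, ee (g n)‖ ≤ 1 / l := by
  set w : ℕ → ℂ := fun n => (1 - ee (g (n + 1) - g n))⁻¹ with hw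
  have hne : ∀ n < k, (1 - ee (g (n + 1) - g n)) ≠ 0 := by
    intro n hn h
    have := norm_one_sub_ee_ge (hl.le.trans (h1 n hn)) (h2 n hn)
    rw [h, norm_zero] at this
    linarith [h1 n hn]
  have hE : ∀ n < k, ee (g n) = w n * (ee (g n) - ee (g (n + 1))) := by
    intro n hn
    have : ee (g (n + 1)) = ee (g n) * ee (g (n + 1) - g n) := by
      rw [← ee_add]
      congr 1
      ring
    rw [this, hw]
    field_simp [hne n hn]
  have hwn : ∀ n < k, ‖w n‖ ≤ 1 / (4 * l) := by
    intro n hn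
    simp only [hw, norm_inv]
    rw [← one_div]
    apply one_div_le_one_div_of_le (by positivity)
    have := norm_one_sub_ee_ge (hl.le.trans (h1 n hn)) (h2 n hn)
    linarith [h1 n hn]
  -- main claim
  have key : ∀ j, j + 1 ≤ k →
      ‖∑ n ∈ range (j + 1), ee (g n) + w j * ee (g (j + 1))‖
        ≤ π / 8 * (1 / (g (j + 1) - g j)) := by
    intro j
    induction j with
    | zero =>
      intro hk
      have hk0 : 0 < k := by omega
      have e1 : ∑ n ∈ range (0 + 1), ee (g n) + w 0 * ee (g (0 + 1)) = w 0 * ee (g 0) := by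
        rw [zero_add, sum_range_one]
        have := hE 0 hk0
        simp only [zero_add] at this
        linear_combination this
      rw [e1, norm_mul, norm_ee, mul_one]
      simp only [hw, norm_inv, zero_add]
      have hd := norm_one_sub_ee_ge (hl.le.trans (h1 0 hk0)) (h2 0 hk0)
      have hpos : 0 < g (0 + 1) - g 0 := lt_of_lt_of_le hl (h1 0 hk0)
      simp only [zero_add] at hd hpos
      calc ‖1 - ee (g 1 - g 0)‖⁻¹ ≤ (4 * (g 1 - g 0))⁻¹ := by
            apply inv_anti₀ (by positivity) hd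
        _ = 1 / 4 * (1 / (g 1 - g 0)) := by
            rw [mul_inv]
            ring
        _ ≤ _ := by
            apply mul_le_mul_of_nonneg_right _ (by positivity)
            have := Real.pi_gt_three
            linarith
    | succ j ih =>
      intro hk
      have ih' := ih (by omega)
      have hj : j + 1 < k := by omega
      have e1 : ∑ n ∈ range (j + 1 + 1), ee (g n) + w (j + 1) * ee (g (j + 1 + 1))
          = (∑ n ∈ range (j + 1), ee (g n) + w j * ee (g (j + 1)))
            + (w (j + 1) - w j) * ee (g (j + 1)) := by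
        rw [sum_range_succ]
        have := hE (j + 1) hj
        linear_combination this
      rw [e1]
      refine (norm_add_le _ _).trans ?_
      rw [norm_mul, norm_ee, mul_one]
      have hb := inv_sub_bound hl (h1 (j + 1) hj) (h3 j hj) (h2 j (by omega))
      have : ‖w (j + 1) - w j‖ ≤ π / 8 * (1 / (g (j + 1 + 1) - g (j + 1)) - 1 / (g (j + 1) - g j)) := hb
      linarith
  rcases Nat.eq_zero_or_pos k with hk | hk
  · subst hk
    simp
    exact hl.le
  · obtain ⟨j, rfl⟩ : ∃ j, k = j + 1 := ⟨k - 1, by omega⟩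
    have hkey := key j le_rfl
    have e2 : ∑ n ∈ range (j + 1), ee (g n)
        = (∑ n ∈ range (j + 1), ee (g n) + w j * ee (g (j + 1))) - w j * ee (g (j + 1)) := by ring
    rw [e2]
    refine (norm_sub_le _ _).trans ?_
    rw [norm_mul, norm_ee, mul_one]
    have hw' := hwn j (by omega)
    have hd : 1 / (g (j + 1) - g j) ≤ 1 / l := one_div_le_one_div_of_le hl (h1 j (by omega))
    have hpi : π ≤ 4 := Real.pi_le_four
    have h4 : π / 8 * (1 / (g (j + 1) - g j)) ≤ 1 / 2 * (1 / l) := by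
      apply mul_le_mul (by linarith) hd _ (by norm_num)
      have := h1 j (by omega)
      have : 0 < g (j + 1) - g j := lt_of_lt_of_le hl this
      positivity
    have h5 : 1 / (4 * l) = 1 / 4 * (1 / l) := by
      field_simp
    have h6 : 0 < 1 / l := by positivity
    rw [h5] at hw'
    linarith

end Pool.Agent.H33
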