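import Pool.Agent.H33.Exp.Vaughan

open Finset Complex Real Filter ArithmeticFunction

namespace Pool.Agent.H33

lemma ev_log (C : ℝ) {s : ℝ} (hs : 0 < s) :
    ∀ᶠ P : ℕ in atTop, C * (Real.log (8 * P) + 1) ≤ (P : ℝ) ^ s := by
  have h1 : ∀ᶠ x : ℝ in atTop, C * (Real.log (8 * x) + 1) ≤ x ^ s := by
    have h2 := (isLittleO_log_rpow_atTop (show (0 : ℝ) < s / 2 by linarith)).bound
      (show (0 : ℝ) < 1 by norm_num)
    have h3 := ev_rpow (|C| * (Real.log 8 + 2)) (show s / 2 < s by linarith)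
    have h4 := (tendsto_rpow_atTop (show (0 : ℝ) < s / 2 by linarith)).eventually_ge_atTop 1
    filter_upwards [h2, h3, h4, eventually_ge_atTop 1] with x hx2 hx3 hx4 hx
    have hx0 : 0 < x := by linarith
    rw [Real.log_mul (by norm_num) hx0.ne']
    have h8 : 0 ≤ Real.log 8 := Real.log_nonneg (by norm_num)
    have h9 : 0 ≤ Real.log x := Real.log_nonneg hx
    have h10 : Real.log x ≤ x ^ (s / 2) := by
      rw [Real.norm_eq_abs, abs_of_nonneg h9, one_mul, Real.norm_eq_abs,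
        abs_of_nonneg (by positivity)] at hx2
      exact hx2
    have h11 : Real.log 8 + Real.log x + 1 ≤ (Real.log 8 + 2) * x ^ (s / 2) := by nlinarith
    calc C * (Real.log 8 + Real.log x + 1) ≤ |C| * (Real.log 8 + Real.log x + 1) := by
          apply mul_le_mul_of_nonneg_right (le_abs_self C) (by linarith)
      _ ≤ |C| * ((Real.log 8 + 2) * x ^ (s / 2)) :=
          mul_le_mul_of_nonneg_left h11 (abs_nonneg C)
      _ = |C| * (Real.log 8 + 2) * x ^ (s / 2) := by ring
      _ ≤ x ^ s := hx3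
  exact tendsto_natCast_atTop_atTop.eventually h1

lemma sum_inv_le (D : ℕ) : ∑ d ∈ Ioc 0 D, (1 : ℝ) / d ≤ 1 + Real.log D := by
  have h := harmonic_le_one_add_log D
  refine le_trans (le_of_eq ?_) h
  clear h
  induction D with
  | zero => simp
  | succ D ih =>
    rw [Finset.sum_Ioc_succ_top (Nat.zero_le D), ih, harmonic_succ]
    push_cast
    rw [one_div]

/-- A sum over `Ioc V (V * 2 ^ J)` is a sum over dyadic blocks. -/
lemma sum_dyadic (V : ℕ) (f : ℕ → ℂ) (J : ℕ) :
    ∑ l ∈ Ioc V (V * 2 ^ J), f l = ∑ j ∈ range J, ∑ l ∈ Ioc (V * 2 ^ j) (2 * (V * 2 ^ j)), f l := by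
  induction J with
  | zero => simp
  | succ J ih =>
    rw [sum_range_succ, ← ih]
    have h1 : V ≤ V * 2 ^ J := Nat.le_mul_of_pos_right _ (by positivity)
    have h2 : V * 2 ^ J ≤ V * 2 ^ (J + 1) := Nat.mul_le_mul_left _ (Nat.pow_le_pow_right (by norm_num) (by omega))
    have h3 : 2 * (V * 2 ^ J) = V * 2 ^ (J + 1) := by ring
    rw [h3, Finset.sum_Ioc_consecutive _ h1 h2]

set_option maxHeartbeats 4000000 in
/-- Exponential sums over primes: power saving for `∑ Λ(n) ee (N / n)` over `(P, 8P]`. -/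
theorem lam_sum (C : ℝ) (hC : 0 ≤ C) : ∃ η : ℝ, 0 < η ∧ η ≤ 1 ∧ ∀ᶠ P : ℕ in atTop,
    ∀ N : ℝ, (P : ℝ) ^ (3 / 2 : ℝ) ≤ N → N ≤ (P : ℝ) ^ C →
      ‖∑ n ∈ Ioc P (8 * P), ((vonMangoldt n : ℝ) : ℂ) * ee (N / n)‖ ≤ (P : ℝ) ^ (1 - η) := by
  obtain ⟨η1, hη1, hη1', ev1⟩ := typeI C hC
  obtain ⟨η2, hη2, hη2', ev2⟩ := typeII C hC
  set η := min η1 η2 with hη
  have hηpos : 0 < η := lt_min hη1 hη2
  have hηle1 : η ≤ η1 := min_le_left _ _
  have hηle2 : η ≤ η2 := min_le_right _ _
  refine ⟨η / 2, by linarith, by linarith, ?_⟩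
  have elog := ev_log 10 (show (0 : ℝ) < η / 4 by linarith)
  have e1 : ∀ᶠ P : ℕ in atTop, (16 : ℝ) ≤ (P : ℝ) ^ (1 / 24 : ℝ) :=
    ((tendsto_rpow_atTop (by norm_num : (0 : ℝ) < 1 / 24)).comp
      tendsto_natCast_atTop_atTop).eventually_ge_atTop _
  filter_upwards [ev1, ev2, elog, e1, eventually_ge_atTop 1] with P hI hII hlog hP24 hP
  intro N hN1 hN2
  have hPr : (1 : ℝ) ≤ P := by exact_mod_cast hP
  have hP0 : (0 : ℝ) < P := by linarith
  -- choice of V
  set V := ⌈(P : ℝ) ^ (1 / 3 : ℝ)⌉₊ with hV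
  have hVge : (P : ℝ) ^ (1 / 3 : ℝ) ≤ V := Nat.le_ceil _
  have h13 : (1 : ℝ) ≤ (P : ℝ) ^ (1 / 3 : ℝ) := Real.one_le_rpow hPr (by norm_num)
  have hVle : (V : ℝ) ≤ 2 * (P : ℝ) ^ (1 / 3 : ℝ) := by
    have := (Nat.ceil_lt_add_one (show 0 ≤ (P : ℝ) ^ (1 / 3 : ℝ) by positivity)).le
    linarith
  have hV1 : 1 ≤ V := by
    have : (1 : ℝ) ≤ V := h13.trans hVge
    exact_mod_cast this
  have hVV : ((V * V : ℕ) : ℝ) ≤ (P : ℝ) ^ (3 / 4 : ℝ) := by
    push_cast
    have h2 : (P : ℝ) ^ (3 / 4 : ℝ) = (P : ℝ) ^ (1 / 3 : ℝ) * (P : ℝ) ^ (1 / 3 : ℝ)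
        * ((P : ℝ) ^ (1 / 24 : ℝ) * (P : ℝ) ^ (1 / 24 : ℝ)) := by
      rw [← Real.rpow_add hP0, ← Real.rpow_add hP0, ← Real.rpow_add hP0]
      norm_num
    rw [h2]
    have h3 : (4 : ℝ) ≤ (P : ℝ) ^ (1 / 24 : ℝ) * (P : ℝ) ^ (1 / 24 : ℝ) := by nlinarith
    calc (V : ℝ) * V ≤ (2 * (P : ℝ) ^ (1 / 3 : ℝ)) * (2 * (P : ℝ) ^ (1 / 3 : ℝ)) :=
          mul_le_mul hVle hVle (by positivity) (by positivity)
      _ = ((P : ℝ) ^ (1 / 3 : ℝ) * (P : ℝ) ^ (1 / 3 : ℝ)) * 4 := by ring
      _ ≤ _ := mul_le_mul_of_nonneg_left h3 (by positivity)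
  have hVleVV : V ≤ V * V := Nat.le_mul_of_pos_left _ hV1
  have hV34 : (V : ℝ) ≤ (P : ℝ) ^ (3 / 4 : ℝ) := by
    refine le_trans ?_ hVV
    exact_mod_cast hVleVV
  have hVP : V ≤ P := by
    have h2 : (V : ℝ) ≤ P := by
      refine hV34.trans ?_
      calc (P : ℝ) ^ (3 / 4 : ℝ) ≤ (P : ℝ) ^ (1 : ℝ) :=
            Real.rpow_le_rpow_of_exponent_le hPr (by norm_num)
        _ = P := Real.rpow_one _
    exact_mod_cast h2
  set lg := Real.log (8 * P) with hlg
  have hlg0 : 0 ≤ lg := Real.log_nonneg (by linarith)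
  have hlgn : ∀ n : ℕ, n ≤ 8 * P → Real.log n ≤ lg := by
    intro n hn
    rcases Nat.eq_zero_or_pos n with h | h
    · rw [h]
      simpa using hlg0
    · apply Real.log_le_log (by exact_mod_cast h)
      exact_mod_cast hn
  -- Vaughan
  have hsplit : ∑ n ∈ Ioc P (8 * P), ((vonMangoldt n : ℝ) : ℂ) * ee (N / n)
      = ∑ n ∈ Ioc P (8 * P), (((muS V * ArithmeticFunction.log) n : ℝ) : ℂ) * ee (N / n)
        - ∑ n ∈ Ioc P (8 * P), ((((muS V * lamS V) * ((zeta : ArithmeticFunction ℕ) : ArithmeticFunction ℝ)) n : ℝ) : ℂ) * ee (N / n)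
        + ∑ n ∈ Ioc P (8 * P), ((((((zeta : ArithmeticFunction ℕ) : ArithmeticFunction ℝ) * lamL V) * muL V) n : ℝ) : ℂ) * ee (N / n) := by
    rw [← sum_sub_distrib, ← sum_add_distrib]
    apply sum_congr rfl
    intro n hn
    rw [mem_Ioc] at hn
    rw [vaughan_apply V n (by omega)]
    push_cast
    ring
  rw [hsplit]
  set Y : ℝ := P * (P : ℝ) ^ (-η) with hY
  have hY0 : 0 ≤ Y := by positivity
  have hη1P : (P : ℝ) ^ (-η1) ≤ (P : ℝ) ^ (-η) :=
    Real.rpow_le_rpow_of_exponent_le hPr (by linarith)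
  -- S1
  have hS1 : ‖∑ n ∈ Ioc P (8 * P), (((muS V * ArithmeticFunction.log) n : ℝ) : ℂ) * ee (N / n)‖
      ≤ 2 * lg * (1 + lg) * Y := by
    rw [sum_conv (muS V) ArithmeticFunction.log (fun n => ee (N / n))]
    refine (norm_sum_le _ _).trans ?_
    have hterm : ∀ d ∈ Ioc 0 (8 * P), ‖((muS V d : ℝ) : ℂ) * ∑ m ∈ Ioc (P / d) (8 * P / d),
        ((ArithmeticFunction.log m : ℝ) : ℂ) * ee (N / ((d * m : ℕ) : ℝ))‖ ≤ 2 * lg * Y * (1 / d) := by
      intro d hd
      rw [mem_Ioc] at hd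
      have hd0 : (0 : ℝ) < d := by exact_mod_cast hd.1
      by_cases hdV : V < d
      · rw [muS_eq_zero hdV]
        simp only [ofReal_zero, zero_mul, norm_zero]
        positivity
      · push Not at hdV
        have hdP : (d : ℝ) ≤ (P : ℝ) ^ (3 / 4 : ℝ) := by
          refine le_trans ?_ hV34
          exact_mod_cast hdV
        have hin := hI N hN1 hN2 d hd.1 hdP
        have hmono : Monotone (fun n : ℕ => Real.log n) := by
          intro x y hxy
          rcases Nat.eq_zero_or_pos x with h | h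
          · subst h
            simp only [Nat.cast_zero, Real.log_zero]
            exact Real.log_natCast_nonneg y
          · exact Real.log_le_log (by exact_mod_cast h) (by exact_mod_cast hxy)
        have hab := abel_bound (fun n : ℕ => Real.log n) (fun m => ee (N / ((d * m : ℕ) : ℝ)))
          hmono (fun n => Real.log_natCast_nonneg n) (P / d) (8 * P / d)
          (Nat.div_le_div_right (by omega)) _ (fun c _ hc => hin c hc)
        rw [norm_mul, Complex.norm_real, Real.norm_eq_abs]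
        have h5 : ‖∑ m ∈ Ioc (P / d) (8 * P / d),
            ((ArithmeticFunction.log m : ℝ) : ℂ) * ee (N / ((d * m : ℕ) : ℝ))‖
            ≤ 2 * lg * ((P : ℝ) / d * (P : ℝ) ^ (-η1)) := by
          refine hab.trans ?_
          apply mul_le_mul_of_nonneg_right _ (by positivity)
          have := hlgn (8 * P / d) (Nat.div_le_self _ _)
          linarith
        have h6 : 2 * lg * ((P : ℝ) / d * (P : ℝ) ^ (-η1)) ≤ 2 * lg * Y * (1 / d) := by
          have : 2 * lg * Y * (1 / d) = 2 * lg * ((P : ℝ) / d * (P : ℝ) ^ (-η)) := by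
            rw [hY]
            ring
          rw [this]
          apply mul_le_mul_of_nonneg_left _ (by positivity)
          apply mul_le_mul_of_nonneg_left hη1P (by positivity)
        calc |muS V d| * _ ≤ 1 * _ := mul_le_mul_of_nonneg_right (abs_muS_le V d) (norm_nonneg _)
          _ = _ := one_mul _
          _ ≤ _ := h5.trans h6
    refine (sum_le_sum hterm).trans ?_
    rw [← mul_sum]
    have h7 := sum_inv_le (8 * P)
    push_cast at h7
    have h8 : 2 * lg * (1 + lg) * Y = 2 * lg * Y * (1 + lg) := by ring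
    rw [h8]
    apply mul_le_mul_of_nonneg_left h7 (by positivity)
  -- S2
  have hS2 : ‖∑ n ∈ Ioc P (8 * P), ((((muS V * lamS V) * ((zeta : ArithmeticFunction ℕ) : ArithmeticFunction ℝ)) n : ℝ) : ℂ) * ee (N / n)‖
      ≤ lg * (1 + lg) * Y := by
    rw [sum_conv (muS V * lamS V) _ (fun n => ee (N / n))]
    refine (norm_sum_le _ _).trans ?_
    have hterm : ∀ d ∈ Ioc 0 (8 * P), ‖(((muS V * lamS V) d : ℝ) : ℂ) * ∑ m ∈ Ioc (P / d) (8 * P / d),
        ((((zeta : ArithmeticFunction ℕ) : ArithmeticFunction ℝ) m : ℝ) : ℂ) * ee (N / ((d * m : ℕ) : ℝ))‖ ≤ lg * Y * (1 / d) := by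
      intro d hd
      rw [mem_Ioc] at hd
      have hd0 : (0 : ℝ) < d := by exact_mod_cast hd.1
      by_cases hdV : V * V < d
      · rw [gamma_eq_zero hdV]
        simp only [ofReal_zero, zero_mul, norm_zero]
        positivity
      · push Not at hdV
        have hdP : (d : ℝ) ≤ (P : ℝ) ^ (3 / 4 : ℝ) := by
          refine le_trans ?_ hVV
          exact_mod_cast hdV
        have hin := hI N hN1 hN2 d hd.1 hdP (8 * P / d) le_rfl
        rw [norm_mul, Complex.norm_real, Real.norm_eq_abs]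
        have h5 : ‖∑ m ∈ Ioc (P / d) (8 * P / d),
            ((((zeta : ArithmeticFunction ℕ) : ArithmeticFunction ℝ) m : ℝ) : ℂ) * ee (N / ((d * m : ℕ) : ℝ))‖
            ≤ ((P : ℝ) / d * (P : ℝ) ^ (-η1)) := by
          refine le_trans (le_of_eq ?_) hin
          congr 1
          apply sum_congr rfl
          intro m hm
          rw [mem_Ioc] at hm
          rw [natCoe_apply, zeta_apply, if_neg ((Nat.zero_le _).trans_lt hm.1).ne']
          simp
        have h6 : lg * ((P : ℝ) / d * (P : ℝ) ^ (-η1)) ≤ lg * Y * (1 / d) := by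
          have : lg * Y * (1 / d) = lg * ((P : ℝ) / d * (P : ℝ) ^ (-η)) := by
            rw [hY]
            ring
          rw [this]
          apply mul_le_mul_of_nonneg_left _ (by positivity)
          apply mul_le_mul_of_nonneg_left hη1P (by positivity)
        refine le_trans ?_ h6
        exact mul_le_mul ((abs_gamma_le V d).trans (hlgn d hd.2)) h5 (norm_nonneg _) hlg0
    refine (sum_le_sum hterm).trans ?_
    rw [← mul_sum]
    have h7 := sum_inv_le (8 * P)
    push_cast at h7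
    have h8 : lg * (1 + lg) * Y = lg * Y * (1 + lg) := by ring
    rw [h8]
    apply mul_le_mul_of_nonneg_left h7 (by positivity)
  -- S3
  set J := Nat.log 2 (8 * P) + 1 with hJ
  have hJle : (J : ℝ) ≤ 2 * (lg + 1) := by
    have h1 : (2 : ℝ) ^ (Nat.log 2 (8 * P)) ≤ 8 * P := by
      have := Nat.pow_log_le_self 2 (show 8 * P ≠ 0 by omega)
      exact_mod_cast this
    have h2 : (Nat.log 2 (8 * P) : ℝ) * Real.log 2 ≤ lg := by
      rw [← Real.log_pow]
      exact Real.log_le_log (by positivity) h1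
    have h3 : (1 / 2 : ℝ) ≤ Real.log 2 := by
      have := Real.log_two_gt_d9
      linarith
    have h4 : (Nat.log 2 (8 * P) : ℝ) * (1 / 2) ≤ lg := by
      refine le_trans ?_ h2
      apply mul_le_mul_of_nonneg_left h3 (Nat.cast_nonneg _)
    rw [hJ]
    push_cast
    linarith
  have hJpow : 8 * P < V * 2 ^ J := by
    have h1 : 8 * P < 2 ^ (Nat.log 2 (8 * P)).succ := Nat.lt_pow_succ_log_self (by norm_num) _
    calc 8 * P < 2 ^ J := h1
      _ ≤ V * 2 ^ J := Nat.le_mul_of_pos_left _ hV1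
  have hS3 : ‖∑ n ∈ Ioc P (8 * P), ((((((zeta : ArithmeticFunction ℕ) : ArithmeticFunction ℝ) * lamL V) * muL V) n : ℝ) : ℂ) * ee (N / n)‖
      ≤ J * (lg * Y) := by
    rw [sum_conv _ (muL V) (fun n => ee (N / n))]
    set β := ((zeta : ArithmeticFunction ℕ) : ArithmeticFunction ℝ) * lamL V with hβ
    set f : ℕ → ℂ := fun l => ((β l : ℝ) : ℂ) * ∑ b ∈ Ioc (P / l) (8 * P / l),
      ((muL V b : ℝ) : ℂ) * ee (N / ((l * b : ℕ) : ℝ)) with hf
    have hfz1 : ∀ l, l ≤ V → f l = 0 := by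
      intro l hl
      simp only [hf]
      rw [hβ, beta_eq_zero hl]
      simp
    have hfz2 : ∀ l, 8 * P / l ≤ V → f l = 0 := by
      intro l hl
      simp only [hf]
      have : ∑ b ∈ Ioc (P / l) (8 * P / l), ((muL V b : ℝ) : ℂ) * ee (N / ((l * b : ℕ) : ℝ)) = 0 := by
        apply sum_eq_zero
        intro b hb
        rw [mem_Ioc] at hb
        rw [muL_eq_zero (by omega)]
        simp
      rw [this, mul_zero]
    have e3 : ∑ l ∈ Ioc 0 (8 * P), f l = ∑ l ∈ Ioc V (V * 2 ^ J), f l := by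
      have e4 : ∑ l ∈ Ioc 0 (8 * P), f l = ∑ l ∈ Ioc V (8 * P), f l := by
        symm
        apply sum_subset
        · intro l hl
          rw [mem_Ioc] at hl ⊢
          omega
        · intro l hl hl'
          rw [mem_Ioc] at hl hl'
          apply hfz1
          omega
      rw [e4]
      apply sum_subset
      · intro l hl
        rw [mem_Ioc] at hl ⊢
        omega
      · intro l hl hl'
        rw [mem_Ioc] at hl hl'
        apply hfz2
        have : 8 * P / l = 0 := Nat.div_eq_of_lt (by omega)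
        omega
    have e5 : ∑ d ∈ Ioc 0 (8 * P), ((β d : ℝ) : ℂ) * ∑ m ∈ Ioc (P / d) (8 * P / d),
        ((muL V m : ℝ) : ℂ) * (fun n : ℕ => ee (N / n)) (d * m) = ∑ l ∈ Ioc 0 (8 * P), f l := rfl
    rw [e5, e3, sum_dyadic]
    refine (norm_sum_le _ _).trans ?_
    have hblock : ∀ j ∈ range J, ‖∑ l ∈ Ioc (V * 2 ^ j) (2 * (V * 2 ^ j)), f l‖ ≤ lg * Y := by
      intro j _
      set L := V * 2 ^ j with hL
      have hLV : V ≤ L := Nat.le_mul_of_pos_right _ (by positivity)
      by_cases hLP : (L : ℝ) ≤ (P : ℝ) ^ (3 / 4 : ℝ)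
      · have hLP' : L ≤ P := by
          have : (L : ℝ) ≤ P := by
            refine hLP.trans ?_
            calc (P : ℝ) ^ (3 / 4 : ℝ) ≤ (P : ℝ) ^ (1 : ℝ) :=
                  Real.rpow_le_rpow_of_exponent_le hPr (by norm_num)
              _ = P := Real.rpow_one _
          exact_mod_cast this
        have h := hII N hN1 hN2 L (fun b => muL V b) (fun l => β l) lg hlg0 ?_ hLP
          (fun b => abs_muL_le V b) ?_
        · refine h.trans ?_
          apply mul_le_mul_of_nonneg_left _ hlg0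
          rw [hY]
          have : (P : ℝ) ^ (1 - η2) = P * (P : ℝ) ^ (-η2) := by
            rw [sub_eq_add_neg, Real.rpow_add hP0, Real.rpow_one]
          rw [this]
          apply mul_le_mul_of_nonneg_left _ hP0.le
          exact Real.rpow_le_rpow_of_exponent_le hPr (by linarith)
        · calc (P : ℝ) ^ (1 / 4 : ℝ) ≤ (P : ℝ) ^ (1 / 3 : ℝ) :=
                Real.rpow_le_rpow_of_exponent_le hPr (by norm_num)
            _ ≤ V := hVge
            _ ≤ L := by exact_mod_cast hLV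
        · intro l hl
          rw [mem_Ioc] at hl
          exact (abs_beta_le V l).trans (hlgn l (by omega))
      · push Not at hLP
        have hz : ∀ l ∈ Ioc L (2 * L), f l = 0 := by
          intro l hl
          rw [mem_Ioc] at hl
          apply hfz2
          have hl0 : (0 : ℝ) < l := by
            have : 0 < l := by omega
            exact_mod_cast this
          have h1 : ((8 * P / l : ℕ) : ℝ) ≤ V := by
            have h2 : ((8 * P / l : ℕ) : ℝ) ≤ ((8 * P : ℕ) : ℝ) / (l : ℝ) := Nat.cast_div_le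
            refine h2.trans ?_
            rw [div_le_iff₀ hl0]
            have h3 : (P : ℝ) ^ (3 / 4 : ℝ) ≤ l := by
              have : (L : ℝ) ≤ l := by exact_mod_cast hl.1.le
              linarith
            have h4 : (P : ℝ) ^ (1 / 3 : ℝ) * (P : ℝ) ^ (3 / 4 : ℝ) ≤ V * l :=
              mul_le_mul hVge h3 (by positivity) (by positivity)
            refine le_trans ?_ h4
            have h5 : (P : ℝ) ^ (1 / 3 : ℝ) * (P : ℝ) ^ (3 / 4 : ℝ)
                = P * ((P : ℝ) ^ (1 / 24 : ℝ) * (P : ℝ) ^ (1 / 24 : ℝ)) := by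
              have : (P : ℝ) * ((P : ℝ) ^ (1 / 24 : ℝ) * (P : ℝ) ^ (1 / 24 : ℝ))
                  = (P : ℝ) ^ (1 : ℝ) * ((P : ℝ) ^ (1 / 24 : ℝ) * (P : ℝ) ^ (1 / 24 : ℝ)) := by
                rw [Real.rpow_one]
              rw [this, ← Real.rpow_add hP0, ← Real.rpow_add hP0, ← Real.rpow_add hP0]
              norm_num
            rw [h5]
            push_cast
            have h6 : (8 : ℝ) ≤ (P : ℝ) ^ (1 / 24 : ℝ) * (P : ℝ) ^ (1 / 24 : ℝ) := by nlinarith
            rw [mul_comm (8 : ℝ) (P : ℝ)]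
            exact mul_le_mul_of_nonneg_left h6 hP0.le
          exact_mod_cast h1
        rw [sum_eq_zero hz, norm_zero]
        positivity
    refine (sum_le_sum hblock).trans ?_
    rw [sum_const, card_range, nsmul_eq_mul]
  -- final
  have hfin : (2 * lg * (1 + lg) + lg * (1 + lg) + J * lg) * Y ≤ (P : ℝ) ^ (1 - η / 2) := by
    have h1 : 2 * lg * (1 + lg) + lg * (1 + lg) + J * lg ≤ (10 * (lg + 1)) * (10 * (lg + 1)) := by
      have h2 : (J : ℝ) * lg ≤ 2 * (lg + 1) * lg := mul_le_mul_of_nonneg_right hJle hlg0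
      nlinarith
    have h3 : (10 * (lg + 1)) * (10 * (lg + 1)) ≤ (P : ℝ) ^ (η / 4) * (P : ℝ) ^ (η / 4) :=
      mul_le_mul hlog hlog (by positivity) (by positivity)
    have h4 : (P : ℝ) ^ (1 - η / 2) = ((P : ℝ) ^ (η / 4) * (P : ℝ) ^ (η / 4)) * Y := by
      rw [hY]
      have : (P : ℝ) * (P : ℝ) ^ (-η) = (P : ℝ) ^ (1 : ℝ) * (P : ℝ) ^ (-η) := by
        rw [Real.rpow_one]
      rw [this, ← Real.rpow_add hP0, ← Real.rpow_add hP0, ← Real.rpow_add hP0]
      congr 1
      ring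
    rw [h4]
    exact mul_le_mul_of_nonneg_right (h1.trans h3) hY0
  refine (norm_add_le _ _).trans ?_
  refine (add_le_add_left (norm_sub_le _ _) _).trans ?_
  refine (add_le_add (add_le_add hS1 hS2) hS3).trans ?_
  refine le_trans (le_of_eq ?_) hfin
  ring

end Pool.Agent.H33
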