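import Pool.Agent.H33.Exp.LamSum

open Finset Complex Real Filter ArithmeticFunction

namespace Pool.Agent.H33

/-- Primes in `(P, 8P]`. -/
def prS (P : ℕ) : Finset ℕ := (Ioc P (8 * P)).filter Nat.Prime

lemma theta_prS (P : ℕ) : ∑ p ∈ prS P, Real.log p
    = Chebyshev.theta ((8 * P : ℕ) : ℝ) - Chebyshev.theta (P : ℝ) := by
  unfold Chebyshev.theta prS
  rw [Nat.floor_natCast, Nat.floor_natCast]
  have h : (Ioc 0 (8 * P)).filter Nat.Prime
      = (Ioc 0 P).filter Nat.Prime ∪ (Ioc P (8 * P)).filter Nat.Prime := by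
    rw [← filter_union, Ioc_union_Ioc_eq_Ioc (by omega) (by omega)]
  have hd : Disjoint ((Ioc 0 P).filter Nat.Prime) ((Ioc P (8 * P)).filter Nat.Prime) := by
    apply disjoint_filter_filter
    rw [Finset.disjoint_left]
    intro a ha hb
    rw [mem_Ioc] at ha hb
    omega
  rw [h, sum_union hd]
  ring

lemma Theta_ge : ∀ᶠ P : ℕ in atTop, (P : ℝ) ≤ ∑ p ∈ prS P, Real.log p := by
  have e1 := ev_log 7 (show (0 : ℝ) < 1 / 2 by norm_num)
  filter_upwards [e1, eventually_ge_atTop 1] with P h1 hP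
  have hPr : (1 : ℝ) ≤ P := by exact_mod_cast hP
  have hP0 : (0 : ℝ) < P := by linarith
  rw [theta_prS]
  have h2 := Chebyshev.theta_ge (8 * P)
  have h3 := Chebyshev.theta_le_log4_mul_x (x := (P : ℝ)) hP0.le
  have h4 : Real.log 4 = 2 * Real.log 2 := by
    rw [show (4 : ℝ) = 2 ^ 2 by norm_num, Real.log_pow]
    norm_num
  rw [h4] at h3
  push_cast at h2 ⊢
  have hl2 : (0.69 : ℝ) < Real.log 2 := by
    have := Real.log_two_gt_d9
    linarith
  set lg := Real.log (8 * P) with hlg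
  have hlg0 : 0 ≤ lg := Real.log_nonneg (by linarith)
  have h5 : Real.log (8 * P + 1) ≤ lg + 1 := by
    have h6 : Real.log (8 * P + 1) ≤ Real.log (8 * P * Real.exp 1) := by
      apply Real.log_le_log (by positivity)
      have := Real.add_one_le_exp 1
      nlinarith
    rw [Real.log_mul (by positivity) (Real.exp_ne_zero _), Real.log_exp] at h6
    exact h6
  have hsq : Real.sqrt P = (P : ℝ) ^ (1 / 2 : ℝ) := Real.sqrt_eq_rpow _
  have h7 : Real.sqrt (8 * P) ≤ 3 * (P : ℝ) ^ (1 / 2 : ℝ) := by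
    rw [← hsq]
    rw [show (3 : ℝ) * Real.sqrt P = Real.sqrt (9 * P) by
      rw [Real.sqrt_mul (by norm_num)]
      congr 1
      rw [show (9 : ℝ) = 3 ^ 2 by norm_num, Real.sqrt_sq (by norm_num)]]
    apply Real.sqrt_le_sqrt
    linarith
  have hp1 : (1 : ℝ) ≤ (P : ℝ) ^ (1 / 2 : ℝ) := Real.one_le_rpow hPr (by norm_num)
  have hpp : (P : ℝ) ^ (1 / 2 : ℝ) * (P : ℝ) ^ (1 / 2 : ℝ) = P := by
    rw [← Real.rpow_add hP0]
    norm_num
  set r := (P : ℝ) ^ (1 / 2 : ℝ) with hr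
  have h8 : 2 * Real.sqrt (8 * P) * lg ≤ 6 * r * (lg + 1) := by
    have : Real.sqrt (8 * P) * lg ≤ (3 * r) * (lg + 1) :=
      mul_le_mul h7 (by linarith) hlg0 (by positivity)
    linarith
  have h9 : r * (7 * (lg + 1)) ≤ r * r := mul_le_mul_of_nonneg_left h1 (by positivity)
  have h10 : lg + 1 ≤ r * (lg + 1) := by nlinarith
  nlinarith

/-- Exponential sums over primes are small. -/
theorem prime_sum (C : ℝ) (hC : 0 ≤ C) : ∀ᶠ P : ℕ in atTop,
    ∀ N : ℝ, (P : ℝ) ^ (3 / 2 : ℝ) ≤ N → N ≤ (P : ℝ) ^ C →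
      ‖∑ p ∈ prS P, ((Real.log p : ℝ) : ℂ) * ee (N / p)‖ ≤ P / 100 := by
  obtain ⟨η, hη, hη1, ev⟩ := lam_sum C hC
  have e1 := ev_log 1400 (show (0 : ℝ) < 1 / 4 by norm_num)
  have e2 : ∀ᶠ P : ℕ in atTop, 200 * (P : ℝ) ^ (1 - η) ≤ (P : ℝ) ^ (1 : ℝ) :=
    tendsto_natCast_atTop_atTop.eventually (ev_rpow 200 (show 1 - η < 1 by linarith))
  filter_upwards [ev, e1, e2, eventually_ge_atTop 1] with P h1 h2 h3 hP
  intro N hN1 hN2
  have hPr : (1 : ℝ) ≤ P := by exact_mod_cast hP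
  have hP0 : (0 : ℝ) < P := by linarith
  have h4 := h1 N hN1 hN2
  rw [Real.rpow_one] at h3
  set lg := Real.log (8 * P) with hlg
  have hlg0 : 0 ≤ lg := Real.log_nonneg (by linarith)
  have hsplit : ∑ p ∈ prS P, ((Real.log p : ℝ) : ℂ) * ee (N / p)
      = ∑ n ∈ Ioc P (8 * P), ((vonMangoldt n : ℝ) : ℂ) * ee (N / n)
        - ∑ n ∈ (Ioc P (8 * P)).filter (fun n => ¬ n.Prime), ((vonMangoldt n : ℝ) : ℂ) * ee (N / n) := by
    rw [← sum_filter_add_sum_filter_not (Ioc P (8 * P)) Nat.Prime, add_sub_cancel_right]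
    unfold prS
    apply sum_congr rfl
    intro p hp
    rw [mem_filter] at hp
    rw [vonMangoldt_apply_prime hp.2]
  rw [hsplit]
  refine (norm_sub_le _ _).trans ?_
  have h5 : ‖∑ n ∈ (Ioc P (8 * P)).filter (fun n => ¬ n.Prime), ((vonMangoldt n : ℝ) : ℂ) * ee (N / n)‖
      ≤ Chebyshev.psi ((8 * P : ℕ) : ℝ) - Chebyshev.theta ((8 * P : ℕ) : ℝ) := by
    rw [Chebyshev.psi_sub_theta_eq_sum_not_prime, Nat.floor_natCast]
    refine (norm_sum_le _ _).trans ?_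
    have : ∀ n ∈ (Ioc P (8 * P)).filter (fun n => ¬ n.Prime),
        ‖((vonMangoldt n : ℝ) : ℂ) * ee (N / n)‖ = vonMangoldt n := by
      intro n _
      rw [norm_mul, norm_ee, mul_one, Complex.norm_real, Real.norm_eq_abs,
        abs_of_nonneg vonMangoldt_nonneg]
    rw [sum_congr rfl this]
    apply sum_le_sum_of_subset_of_nonneg
    · intro n hn
      rw [mem_filter, mem_Ioc] at hn ⊢
      exact ⟨⟨by omega, hn.1.2⟩, hn.2⟩
    · intro n _ _
      exact vonMangoldt_nonneg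
  have h6 := Chebyshev.psi_sub_theta_le (x := ((8 * P : ℕ) : ℝ)) (by
    push_cast
    linarith)
  push_cast at h5 h6
  have hsq : Real.sqrt P = (P : ℝ) ^ (1 / 2 : ℝ) := Real.sqrt_eq_rpow _
  have h7 : Real.sqrt (8 * P) ≤ 3 * (P : ℝ) ^ (1 / 2 : ℝ) := by
    rw [← hsq]
    rw [show (3 : ℝ) * Real.sqrt P = Real.sqrt (9 * P) by
      rw [Real.sqrt_mul (by norm_num)]
      congr 1
      rw [show (9 : ℝ) = 3 ^ 2 by norm_num, Real.sqrt_sq (by norm_num)]]
    apply Real.sqrt_le_sqrt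
    linarith
  have h8 : 2 * Real.sqrt (8 * P) * lg ≤ 6 * ((P : ℝ) ^ (1 / 2 : ℝ) * (lg + 1)) := by
    have : Real.sqrt (8 * P) * lg ≤ (3 * (P : ℝ) ^ (1 / 2 : ℝ)) * (lg + 1) :=
      mul_le_mul h7 (by linarith) hlg0 (by positivity)
    linarith
  have h9 : (P : ℝ) ^ (1 / 2 : ℝ) * (1400 * (lg + 1)) ≤ P := by
    calc (P : ℝ) ^ (1 / 2 : ℝ) * (1400 * (lg + 1)) ≤ (P : ℝ) ^ (1 / 2 : ℝ) * (P : ℝ) ^ (1 / 4 : ℝ) :=
          mul_le_mul_of_nonneg_left h2 (by positivity)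
      _ = (P : ℝ) ^ (3 / 4 : ℝ) := by
          rw [← Real.rpow_add hP0]
          norm_num
      _ ≤ (P : ℝ) ^ (1 : ℝ) := Real.rpow_le_rpow_of_exponent_le hPr (by norm_num)
      _ = P := Real.rpow_one _
  nlinarith

end Pool.Agent.H33
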