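import Pool.Agent.H33.Exp.W1

open Finset Complex Real Filter

namespace Pool.Agent.H33

/-- Abel summation bound with a monotone weight. -/
lemma abel_bound (w : ℕ → ℝ) (z : ℕ → ℂ) (hw : Monotone w) (hw0 : ∀ n, 0 ≤ w n) (a b : ℕ)
    (hab : a ≤ b) (B : ℝ) (hB : ∀ c, a ≤ c → c ≤ b → ‖∑ m ∈ Ioc a c, z m‖ ≤ B) :
    ‖∑ m ∈ Ioc a b, (w m : ℂ) * z m‖ ≤ 2 * w b * B := by
  have hB0 : 0 ≤ B := (norm_nonneg _).trans (hB a le_rfl hab)
  have key : ∀ c, a ≤ c → c ≤ b →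
      ‖∑ m ∈ Ioc a c, (w m : ℂ) * z m - (w c : ℂ) * ∑ m ∈ Ioc a c, z m‖ ≤ (w c - w a) * B := by
    intro c hc
    induction c, hc using Nat.le_induction with
    | base =>
      intro _
      simp
    | succ c hc ih =>
      intro hcb
      have ih' := ih (by omega)
      have e1 : Ioc a (c + 1) = insert (c + 1) (Ioc a c) := by
        ext x
        rw [mem_insert, mem_Ioc, mem_Ioc]
        omega
      have hnot : c + 1 ∉ Ioc a c := by
        rw [mem_Ioc]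
        omega
      rw [e1, sum_insert hnot, sum_insert hnot]
      have e2 : (w (c + 1) : ℂ) * z (c + 1) + ∑ m ∈ Ioc a c, (w m : ℂ) * z m
          - (w (c + 1) : ℂ) * (z (c + 1) + ∑ m ∈ Ioc a c, z m)
          = (∑ m ∈ Ioc a c, (w m : ℂ) * z m - (w c : ℂ) * ∑ m ∈ Ioc a c, z m)
            - ((w (c + 1) - w c : ℝ) : ℂ) * ∑ m ∈ Ioc a c, z m := by
        push_cast
        ring
      rw [e2]
      refine (norm_sub_le _ _).trans ?_
      rw [norm_mul, Complex.norm_real, Real.norm_eq_abs,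
        abs_of_nonneg (by linarith [hw (Nat.le_succ c)])]
      have h3 := mul_le_mul_of_nonneg_left (hB c hc (by omega))
        (sub_nonneg.mpr (hw (Nat.le_succ c)))
      have h4 : (w (c + 1) - w a) * B = (w c - w a) * B + (w (c + 1) - w c) * B := by ring
      rw [h4]
      exact add_le_add ih' h3
  have h1 := key b hab le_rfl
  have h2 := hB b hab le_rfl
  have e : ∑ m ∈ Ioc a b, (w m : ℂ) * z m
      = (∑ m ∈ Ioc a b, (w m : ℂ) * z m - (w b : ℂ) * ∑ m ∈ Ioc a b, z m)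
        + (w b : ℂ) * ∑ m ∈ Ioc a b, z m := by ring
  rw [e]
  refine (norm_add_le _ _).trans ?_
  rw [norm_mul, Complex.norm_real, Real.norm_eq_abs, abs_of_nonneg (hw0 b)]
  have h3 := mul_le_mul_of_nonneg_left h2 (hw0 b)
  have h4 : 0 ≤ w a * B := mul_nonneg (hw0 a) hB0
  nlinarith

lemma Ioc_eq_Ico_succ (a b : ℕ) : Ioc a b = Ico (a + 1) (b + 1) := by
  ext x
  rw [mem_Ioc, mem_Ico]
  omega

/-- Inner sums of type I. -/
theorem typeI (C : ℝ) (hC : 0 ≤ C) : ∃ η : ℝ, 0 < η ∧ η ≤ 1 ∧ ∀ᶠ P : ℕ in atTop,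
    ∀ N : ℝ, (P : ℝ) ^ (3 / 2 : ℝ) ≤ N → N ≤ (P : ℝ) ^ C →
      ∀ d : ℕ, 1 ≤ d → (d : ℝ) ≤ (P : ℝ) ^ (3 / 4 : ℝ) → ∀ c, c ≤ 8 * P / d →
        ‖∑ m ∈ Ioc (P / d) c, ee (N / ((d * m : ℕ) : ℝ))‖
          ≤ ((P : ℝ) / d) * (P : ℝ) ^ (-η) := by
  obtain ⟨η, hη, hη1, X0, hX0, hW⟩ := W1 (4 * C) 9 (by norm_num)
  refine ⟨η / 4, by linarith, by linarith, ?_⟩
  have e1 : ∀ᶠ P : ℕ in atTop, X0 ≤ (P : ℝ) ^ (1 / 4 : ℝ) :=
    ((tendsto_rpow_atTop (by norm_num : (0 : ℝ) < 1 / 4)).comp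
      tendsto_natCast_atTop_atTop).eventually_ge_atTop X0
  filter_upwards [e1, eventually_ge_atTop 1] with P hP1 hP
  intro N hN1 hN2 d hd hdP c hc
  have hPr : (1 : ℝ) ≤ P := by exact_mod_cast hP
  have hP0 : (0 : ℝ) < P := by linarith
  have hdr : (1 : ℝ) ≤ d := by exact_mod_cast hd
  have hd0 : (0 : ℝ) < d := by linarith
  set X : ℝ := (P : ℝ) / d with hX
  have hXge : (P : ℝ) ^ (1 / 4 : ℝ) ≤ X := by
    rw [hX, le_div_iff₀ hd0]
    calc (P : ℝ) ^ (1 / 4 : ℝ) * d ≤ (P : ℝ) ^ (1 / 4 : ℝ) * (P : ℝ) ^ (3 / 4 : ℝ) :=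
          mul_le_mul_of_nonneg_left hdP (by positivity)
      _ = P := by
        rw [← Real.rpow_add hP0]
        norm_num
  have hXX0 : X0 ≤ X := hP1.trans hXge
  have hX1 : 1 ≤ X := hX0.trans hXX0
  have hX0' : 0 < X := by linarith
  have hXP : X ≤ P := div_le_self hP0.le hdr
  have h := hW X hXX0 (N / d) ?_ ?_ (P / d + 1) (c + 1) ?_ ?_
  · rw [Ioc_eq_Ico_succ]
    have e : ∀ m : ℕ, N / ((d * m : ℕ) : ℝ) = N / d / m := by
      intro m
      push_cast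
      rw [div_div]
    simp only [e]
    refine h.trans ?_
    have : X ^ (1 - η) = X * X ^ (-η) := by
      rw [sub_eq_add_neg, Real.rpow_add hX0', Real.rpow_one]
    rw [this]
    apply mul_le_mul_of_nonneg_left _ hX0'.le
    have e4 : (P : ℝ) ^ (-(η / 4)) = ((P : ℝ) ^ (1 / 4 : ℝ)) ^ (-η) := by
      rw [← Real.rpow_mul hP0.le]
      congr 1
      ring
    rw [e4]
    exact Real.rpow_le_rpow_of_nonpos (by positivity) hXge (by linarith)
  · -- X^(17/16) ≤ N/d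
    rw [le_div_iff₀ hd0]
    refine le_trans ?_ hN1
    have e5 : X ^ (17 / 16 : ℝ) = X * X ^ (1 / 16 : ℝ) := by
      rw [show (17 / 16 : ℝ) = 1 + 1 / 16 by norm_num, Real.rpow_add hX0', Real.rpow_one]
    have e6 : X * d = P := by
      rw [hX]
      field_simp
    calc X ^ (17 / 16 : ℝ) * d = P * X ^ (1 / 16 : ℝ) := by
          rw [e5, ← e6]
          ring
      _ ≤ P * (P : ℝ) ^ (1 / 16 : ℝ) := by
          apply mul_le_mul_of_nonneg_left _ hP0.le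
          exact Real.rpow_le_rpow hX0'.le hXP (by norm_num)
      _ = (P : ℝ) ^ (17 / 16 : ℝ) := by
          rw [show (17 / 16 : ℝ) = 1 + 1 / 16 by norm_num, Real.rpow_add hP0, Real.rpow_one]
      _ ≤ (P : ℝ) ^ (3 / 2 : ℝ) := Real.rpow_le_rpow_of_exponent_le hPr (by norm_num)
  · have hN0 : 0 ≤ N := le_trans (by positivity) hN1
    calc N / d ≤ N := div_le_self hN0 hdr
      _ ≤ (P : ℝ) ^ C := hN2
      _ = ((P : ℝ) ^ (1 / 4 : ℝ)) ^ (4 * C) := by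
          rw [← Real.rpow_mul hP0.le]
          congr 1
          ring
      _ ≤ X ^ (4 * C) := Real.rpow_le_rpow (by positivity) hXge (by linarith)
  · push_cast
    rw [hX]
    have := Nat.lt_div_mul_add (a := P) (show 0 < d by omega)
    have h2 : (P : ℝ) < ((P / d : ℕ) : ℝ) * d + d := by exact_mod_cast this
    rw [div_le_iff₀ hd0]
    nlinarith
  · have h1 : ((8 * P / d : ℕ) : ℝ) ≤ ((8 * P : ℕ) : ℝ) / (d : ℝ) := Nat.cast_div_le
    have h2 : (c : ℝ) ≤ ((8 * P / d : ℕ) : ℝ) := by exact_mod_cast hc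
    push_cast at h1 ⊢
    have h3 : 8 * (P : ℝ) / d = 8 * X := by
      rw [hX]
      ring
    rw [h3] at h1
    linarith

end Pool.Agent.H33
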