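import Pool.Agent.H33.Exp.TypeI

open Finset Complex Real Filter

namespace Pool.Agent.H33

/-- Cauchy-Schwarz step for a bilinear sum with phases `N / (l b)`. -/
lemma bilinear_cs (N B0 : ℝ) (hB0 : 0 ≤ B0) (L Q : ℕ) (R : Finset ℕ)
    (lo hi : ℕ → ℕ) (α β : ℕ → ℝ) (hα : ∀ b, |α b| ≤ 1)
    (hβ : ∀ l ∈ Ioc L (2 * L), |β l| ≤ B0)
    (hR : ∀ l ∈ Ioc L (2 * L), Ioc (lo l) (hi l) ⊆ R) (hQ : R.card ≤ Q) :
    ‖∑ l ∈ Ioc L (2 * L), (β l : ℂ) * ∑ b ∈ Ioc (lo l) (hi l), (α b : ℂ) *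
        ee (N / ((l * b : ℕ) : ℝ))‖ ^ 2
      ≤ Q * (B0 ^ 2 * ∑ l₁ ∈ Ioc L (2 * L), ∑ l₂ ∈ Ioc L (2 * L),
        ‖∑ b ∈ Ioc (max (lo l₁) (lo l₂)) (min (hi l₁) (hi l₂)), ee ((N / l₁ - N / l₂) / b)‖) := by
  classical
  set J := Ioc L (2 * L) with hJ
  set u : ℕ → ℕ → ℂ := fun b l =>
    (if b ∈ Ioc (lo l) (hi l) then (β l : ℂ) * ee (N / ((l * b : ℕ) : ℝ)) else 0) with hu
  have e1 : ∑ l ∈ J, (β l : ℂ) * ∑ b ∈ Ioc (lo l) (hi l), (α b : ℂ) * ee (N / ((l * b : ℕ) : ℝ))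
      = ∑ b ∈ R, (α b : ℂ) * ∑ l ∈ J, u b l := by
    have : ∀ l ∈ J, (β l : ℂ) * ∑ b ∈ Ioc (lo l) (hi l), (α b : ℂ) * ee (N / ((l * b : ℕ) : ℝ))
        = ∑ b ∈ R, (α b : ℂ) * u b l := by
      intro l hl
      rw [mul_sum, ← sum_subset (hR l hl)]
      · apply sum_congr rfl
        intro b hb
        simp only [hu]
        rw [if_pos hb]
        ring
      · intro b _ hb
        simp only [hu]
        rw [if_neg hb, mul_zero]
    rw [sum_congr rfl this, sum_comm]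
    apply sum_congr rfl
    intro b _
    rw [mul_sum]
  rw [e1]
  have h1 : ‖∑ b ∈ R, (α b : ℂ) * ∑ l ∈ J, u b l‖ ≤ ∑ b ∈ R, ‖∑ l ∈ J, u b l‖ := by
    refine (norm_sum_le _ _).trans (sum_le_sum ?_)
    intro b _
    rw [norm_mul, Complex.norm_real, Real.norm_eq_abs]
    have := mul_le_mul_of_nonneg_right (hα b) (norm_nonneg (∑ l ∈ J, u b l))
    linarith
  have h2 : ‖∑ b ∈ R, (α b : ℂ) * ∑ l ∈ J, u b l‖ ^ 2
      ≤ (R.card : ℝ) * ∑ b ∈ R, ‖∑ l ∈ J, u b l‖ ^ 2 :=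
    (pow_le_pow_left₀ (norm_nonneg _) h1 2).trans sq_sum_le_card_mul_sum_sq
  refine h2.trans ?_
  have hQ' : (R.card : ℝ) ≤ Q := by exact_mod_cast hQ
  have hnn : 0 ≤ ∑ b ∈ R, ‖∑ l ∈ J, u b l‖ ^ 2 := sum_nonneg (fun b _ => by positivity)
  refine (mul_le_mul_of_nonneg_right hQ' hnn).trans ?_
  apply mul_le_mul_of_nonneg_left _ (Nat.cast_nonneg _)
  have e2 : ((∑ b ∈ R, ‖∑ l ∈ J, u b l‖ ^ 2 : ℝ) : ℂ)
      = ∑ l₁ ∈ J, ∑ l₂ ∈ J, ∑ b ∈ R, u b l₁ * (starRingEnd ℂ) (u b l₂) := by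
    push_cast
    have : ∀ b ∈ R, ((‖∑ l ∈ J, u b l‖ : ℂ)) ^ 2
        = ∑ l₁ ∈ J, ∑ l₂ ∈ J, u b l₁ * (starRingEnd ℂ) (u b l₂) := by
      intro b _
      rw [← Complex.mul_conj', map_sum, sum_mul_sum]
    rw [sum_congr rfl this, sum_comm]
    apply sum_congr rfl
    intro l₁ _
    rw [sum_comm]
  have e3 : ∑ b ∈ R, ‖∑ l ∈ J, u b l‖ ^ 2
      = ‖((∑ b ∈ R, ‖∑ l ∈ J, u b l‖ ^ 2 : ℝ) : ℂ)‖ := by
    rw [Complex.norm_real, Real.norm_eq_abs, abs_of_nonneg hnn]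
  rw [e3, e2, mul_sum]
  refine (norm_sum_le _ _).trans (sum_le_sum ?_)
  intro l₁ hl₁
  rw [mul_sum]
  refine (norm_sum_le _ _).trans (sum_le_sum ?_)
  intro l₂ hl₂
  have e4 : ∑ b ∈ R, u b l₁ * (starRingEnd ℂ) (u b l₂)
      = ((β l₁ * β l₂ : ℝ) : ℂ) *
        ∑ b ∈ Ioc (max (lo l₁) (lo l₂)) (min (hi l₁) (hi l₂)), ee ((N / l₁ - N / l₂) / b) := by
    have hsub : Ioc (max (lo l₁) (lo l₂)) (min (hi l₁) (hi l₂)) ⊆ R := by
      intro b hb
      apply hR l₁ hl₁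
      rw [mem_Ioc] at hb ⊢
      have h5 := le_max_left (lo l₁) (lo l₂)
      have h6 := min_le_left (hi l₁) (hi l₂)
      omega
    rw [← sum_subset hsub, mul_sum]
    · apply sum_congr rfl
      intro b hb
      rw [mem_Ioc] at hb
      have h5 := le_max_left (lo l₁) (lo l₂)
      have h6 := min_le_left (hi l₁) (hi l₂)
      have h7 := le_max_right (lo l₁) (lo l₂)
      have h8 := min_le_right (hi l₁) (hi l₂)
      simp only [hu]
      rw [if_pos (by rw [mem_Ioc]; omega), if_pos (by rw [mem_Ioc]; omega)]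
      rw [map_mul, Complex.conj_ofReal]
      have e5 : (N / (l₁ : ℝ) - N / (l₂ : ℝ)) / (b : ℝ)
          = N / ((l₁ * b : ℕ) : ℝ) - N / ((l₂ * b : ℕ) : ℝ) := by
        push_cast
        rw [sub_div, div_div, div_div]
      rw [e5, ee_sub]
      push_cast
      ring
    · intro b _ hb
      by_cases h1 : b ∈ Ioc (lo l₁) (hi l₁)
      · by_cases h2 : b ∈ Ioc (lo l₂) (hi l₂)
        · exfalso
          apply hb
          rw [mem_Ioc] at h1 h2 ⊢
          exact ⟨max_lt h1.1 h2.1, le_min h1.2 h2.2⟩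
        · simp only [hu]
          rw [if_neg h2]
          simp
      · simp only [hu]
        rw [if_neg h1]
        simp
  rw [e4, norm_mul, Complex.norm_real, Real.norm_eq_abs, abs_mul]
  apply mul_le_mul_of_nonneg_right _ (norm_nonneg _)
  rw [sq]
  exact mul_le_mul (hβ l₁ hl₁) (hβ l₂ hl₂) (abs_nonneg _) hB0

lemma card_close (L k : ℕ) (l₁ : ℕ) :
    ((Ioc L (2 * L)).filter (fun l₂ : ℕ => l₁ ≤ l₂ + k ∧ l₂ ≤ l₁ + k)).card ≤ 2 * k + 1 := by
  have : (Ioc L (2 * L)).filter (fun l₂ : ℕ => l₁ ≤ l₂ + k ∧ l₂ ≤ l₁ + k) ⊆ Icc (l₁ - k) (l₁ + k) := by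
    intro l hl
    rw [mem_filter] at hl
    rw [mem_Icc]
    omega
  refine (card_le_card this).trans ?_
  rw [Nat.card_Icc]
  omega

lemma sum_pairs_bound (L k : ℕ) (G : ℕ → ℕ → ℝ) (Y Z : ℝ) (hY : 0 ≤ Y) (hZ : 0 ≤ Z)
    (h1 : ∀ l₁ ∈ Ioc L (2 * L), ∀ l₂ ∈ Ioc L (2 * L), G l₁ l₂ ≤ Z)
    (h2 : ∀ l₁ ∈ Ioc L (2 * L), ∀ l₂ ∈ Ioc L (2 * L), ¬ (l₁ ≤ l₂ + k ∧ l₂ ≤ l₁ + k) → G l₁ l₂ ≤ Y) :
    ∑ l₁ ∈ Ioc L (2 * L), ∑ l₂ ∈ Ioc L (2 * L), G l₁ l₂ ≤ L * (L * Y + (2 * k + 1) * Z) := by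
  have hcard : (Ioc L (2 * L)).card = L := by
    rw [Nat.card_Ioc]
    omega
  have : ∀ l₁ ∈ Ioc L (2 * L), ∑ l₂ ∈ Ioc L (2 * L), G l₁ l₂ ≤ L * Y + (2 * k + 1) * Z := by
    intro l₁ hl₁
    have hb : ∀ l₂ ∈ Ioc L (2 * L), G l₁ l₂
        ≤ Y + (if l₁ ≤ l₂ + k ∧ l₂ ≤ l₁ + k then Z else 0) := by
      intro l₂ hl₂
      split_ifs with h
      · have := h1 l₁ hl₁ l₂ hl₂
        linarith
      · have := h2 l₁ hl₁ l₂ hl₂ h
        linarith
    refine (sum_le_sum hb).trans ?_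
    rw [sum_add_distrib, sum_const, hcard, nsmul_eq_mul, ← sum_filter, sum_const, nsmul_eq_mul]
    have hc := card_close L k l₁
    have hc' : (((Ioc L (2 * L)).filter (fun l₂ : ℕ => l₁ ≤ l₂ + k ∧ l₂ ≤ l₁ + k)).card : ℝ)
        ≤ 2 * k + 1 := by exact_mod_cast hc
    have := mul_le_mul_of_nonneg_right hc' hZ
    linarith
  refine (sum_le_sum this).trans ?_
  rw [sum_const, hcard, nsmul_eq_mul]

set_option maxHeartbeats 1000000 in
/-- Type II sums over one dyadic block. -/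
theorem typeII (C : ℝ) (hC : 0 ≤ C) : ∃ η : ℝ, 0 < η ∧ η ≤ 1 ∧ ∀ᶠ P : ℕ in atTop,
    ∀ N : ℝ, (P : ℝ) ^ (3 / 2 : ℝ) ≤ N → N ≤ (P : ℝ) ^ C →
      ∀ (L : ℕ) (α β : ℕ → ℝ) (B0 : ℝ), 0 ≤ B0 → (P : ℝ) ^ (1 / 4 : ℝ) ≤ L →
        (L : ℝ) ≤ (P : ℝ) ^ (3 / 4 : ℝ) → (∀ b, |α b| ≤ 1) → (∀ l ∈ Ioc L (2 * L), |β l| ≤ B0) →
        ‖∑ l ∈ Ioc L (2 * L), (β l : ℂ) * ∑ b ∈ Ioc (P / l) (8 * P / l), (α b : ℂ) *
          ee (N / ((l * b : ℕ) : ℝ))‖ ≤ B0 * (P : ℝ) ^ (1 - η) := by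
  obtain ⟨η, hη, hη1, X0, hX0, hW⟩ := W1 (8 * C) 17 (by norm_num)
  refine ⟨η / 16, by linarith, by linarith, ?_⟩
  have e1 : ∀ᶠ P : ℕ in atTop, max X0 2 ≤ (P : ℝ) ^ (1 / 8 : ℝ) :=
    ((tendsto_rpow_atTop (by norm_num : (0 : ℝ) < 1 / 8)).comp
      tendsto_natCast_atTop_atTop).eventually_ge_atTop _
  have e2 : ∀ᶠ P : ℕ in atTop, 400 * (P : ℝ) ^ (2 - η / 4) ≤ (P : ℝ) ^ (2 - η / 8) :=
    tendsto_natCast_atTop_atTop.eventually (ev_rpow 400 (show 2 - η / 4 < 2 - η / 8 by linarith))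
  filter_upwards [e1, e2, eventually_ge_atTop 1] with P hP1 hP2 hP
  intro N hN1 hN2 L α β B0 hB0 hL1 hL2 hα hβ
  have hPr : (1 : ℝ) ≤ P := by exact_mod_cast hP
  have hP0 : (0 : ℝ) < P := by linarith
  have hP8 : (2 : ℝ) ≤ (P : ℝ) ^ (1 / 8 : ℝ) := (le_max_right _ _).trans hP1
  have hP8' : X0 ≤ (P : ℝ) ^ (1 / 8 : ℝ) := (le_max_left _ _).trans hP1
  have hP4 : (P : ℝ) ^ (1 / 4 : ℝ) = (P : ℝ) ^ (1 / 8 : ℝ) * (P : ℝ) ^ (1 / 8 : ℝ) := by
    rw [← Real.rpow_add hP0]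
    norm_num
  have hL0 : (0 : ℝ) < L := lt_of_lt_of_le (by positivity) hL1
  have hLpos : 0 < L := by exact_mod_cast hL0
  have hN0 : 0 < N := lt_of_lt_of_le (by positivity) hN1
  set X : ℝ := (P : ℝ) / (2 * L) with hX
  have hXge : (P : ℝ) ^ (1 / 8 : ℝ) ≤ X := by
    rw [hX, le_div_iff₀ (by positivity)]
    have h1 : (P : ℝ) = (P : ℝ) ^ (1 / 4 : ℝ) * (P : ℝ) ^ (3 / 4 : ℝ) := by
      rw [← Real.rpow_add hP0]
      norm_num
    have h2 : (P : ℝ) ^ (1 / 4 : ℝ) * (L : ℝ) ≤ (P : ℝ) ^ (1 / 4 : ℝ) * (P : ℝ) ^ (3 / 4 : ℝ) :=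
      mul_le_mul_of_nonneg_left hL2 (by positivity)
    have h3 : (P : ℝ) ^ (1 / 8 : ℝ) * (2 * L) ≤ (P : ℝ) ^ (1 / 4 : ℝ) * L := by
      rw [hP4]
      have : (P : ℝ) ^ (1 / 8 : ℝ) * 2 ≤ (P : ℝ) ^ (1 / 8 : ℝ) * (P : ℝ) ^ (1 / 8 : ℝ) :=
        mul_le_mul_of_nonneg_left hP8 (by positivity)
      nlinarith
    linarith
  have hXX0 : X0 ≤ X := hP8'.trans hXge
  have hX1 : 1 ≤ X := hX0.trans hXX0
  have hX0' : 0 < X := by linarith
  have hXP : X ≤ P := by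
    rw [hX]
    apply div_le_self hP0.le
    have : (1 : ℝ) ≤ L := by exact_mod_cast hLpos
    linarith
  have hXL : X * (2 * L) = P := by
    rw [hX]
    field_simp
  -- the Cauchy-Schwarz step
  have hcs := bilinear_cs N B0 hB0 L (8 * P / L) (Ioc (P / (2 * L)) (8 * P / L))
    (fun l => P / l) (fun l => 8 * P / l) α β hα hβ (by
      intro l hl b hb
      rw [mem_Ioc] at hl hb ⊢
      constructor
      · refine lt_of_le_of_lt ?_ hb.1
        exact Nat.div_le_div_left hl.2 (by omega)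
      · refine hb.2.trans ?_
        exact Nat.div_le_div_left hl.1.le hLpos) (by
      rw [Nat.card_Ioc]
      exact Nat.sub_le _ _)
  set T0 : ℝ := L * (P : ℝ) ^ (-(1 / 4) : ℝ) with hT0
  set k : ℕ := ⌊T0⌋₊ with hk
  have hT0pos : 0 ≤ T0 := by positivity
  have hkle : (k : ℝ) ≤ T0 := Nat.floor_le hT0pos
  have hRcard : ((8 * P / L : ℕ) : ℝ) ≤ 16 * X := by
    have h1 : ((8 * P / L : ℕ) : ℝ) ≤ ((8 * P : ℕ) : ℝ) / (L : ℝ) := Nat.cast_div_le
    refine h1.trans (le_of_eq ?_)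
    rw [hX]
    push_cast
    field_simp
    norm_num
  have hpairs := sum_pairs_bound L k
    (fun l₁ l₂ => ‖∑ b ∈ Ioc (max (P / l₁) (P / l₂)) (min (8 * P / l₁) (8 * P / l₂)),
      ee ((N / l₁ - N / l₂) / b)‖) (X ^ (1 - η)) (16 * X) (by positivity) (by positivity)
    (by
      intro l₁ hl₁ l₂ hl₂
      rw [mem_Ioc] at hl₁ hl₂
      refine (norm_sum_ee_le _ _).trans ?_
      refine le_trans ?_ hRcard
      rw [Nat.card_Ioc]
      have h1 : 8 * P / l₁ ≤ 8 * P / L := Nat.div_le_div_left hl₁.1.le hLpos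
      have h2 : min (8 * P / l₁) (8 * P / l₂) ≤ 8 * P / l₁ := min_le_left _ _
      have h3 : min (8 * P / l₁) (8 * P / l₂) - max (P / l₁) (P / l₂) ≤ 8 * P / L :=
        (Nat.sub_le _ _).trans (h2.trans h1)
      exact_mod_cast h3)
    (by
      -- the non-close pairs
      have main : ∀ l₁ l₂ : ℕ, L < l₁ → l₁ ≤ 2 * L → L < l₂ → l₂ ≤ 2 * L → l₁ + k < l₂ →
          ‖∑ b ∈ Ioc (max (P / l₁) (P / l₂)) (min (8 * P / l₁) (8 * P / l₂)),
            ee ((N / l₁ - N / l₂) / b)‖ ≤ X ^ (1 - η) := by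
        intro l₁ l₂ h11 h12 h21 h22 hlt
        have hl1 : (0 : ℝ) < l₁ := by
          have : 0 < l₁ := by omega
          exact_mod_cast this
        have hl2 : (0 : ℝ) < l₂ := by
          have : 0 < l₂ := by omega
          exact_mod_cast this
        rw [Ioc_eq_Ico_succ]
        apply hW X hXX0
        · -- lower bound for N'
          have hd : T0 ≤ (l₂ : ℝ) - l₁ := by
            have h1 : T0 < (k : ℝ) + 1 := Nat.lt_floor_add_one T0
            have h2 : (l₁ : ℝ) + k + 1 ≤ l₂ := by exact_mod_cast hlt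
            linarith
          have e3 : N / (l₁ : ℝ) - N / (l₂ : ℝ) = N * (l₂ - l₁) / (l₁ * l₂) := by
            field_simp
          rw [e3, le_div_iff₀ (by positivity)]
          have h4 : (l₁ : ℝ) * l₂ ≤ (2 * L) * (2 * L) := by
            have h5 : (l₁ : ℝ) ≤ 2 * L := by exact_mod_cast h12
            have h6 : (l₂ : ℝ) ≤ 2 * L := by exact_mod_cast h22
            exact mul_le_mul h5 h6 hl2.le (by positivity)
          have e5 : X ^ (17 / 16 : ℝ) = X * X ^ (1 / 16 : ℝ) := by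
            rw [show (17 / 16 : ℝ) = 1 + 1 / 16 by norm_num, Real.rpow_add hX0', Real.rpow_one]
          have h7 : X ^ (1 / 16 : ℝ) ≤ (P : ℝ) ^ (1 / 8 : ℝ) := by
            calc X ^ (1 / 16 : ℝ) ≤ (P : ℝ) ^ (1 / 16 : ℝ) :=
                  Real.rpow_le_rpow hX0'.le hXP (by norm_num)
              _ ≤ (P : ℝ) ^ (1 / 8 : ℝ) := Real.rpow_le_rpow_of_exponent_le hPr (by norm_num)
          calc X ^ (17 / 16 : ℝ) * ((l₁ : ℝ) * l₂)
              ≤ X ^ (17 / 16 : ℝ) * ((2 * L) * (2 * L)) :=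
                mul_le_mul_of_nonneg_left h4 (by positivity)
            _ = (X * (2 * L)) * ((X ^ (1 / 16 : ℝ) * 2) * L) := by
                rw [e5]
                ring
            _ = P * ((X ^ (1 / 16 : ℝ) * 2) * L) := by rw [hXL]
            _ ≤ P * (((P : ℝ) ^ (1 / 8 : ℝ) * (P : ℝ) ^ (1 / 8 : ℝ)) * L) := by
                apply mul_le_mul_of_nonneg_left _ hP0.le
                apply mul_le_mul_of_nonneg_right _ hL0.le
                exact mul_le_mul h7 hP8 (by norm_num) (by positivity)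
            _ = (P : ℝ) ^ (3 / 2 : ℝ) * (L * (P : ℝ) ^ (-(1 / 4) : ℝ)) := by
                rw [← hP4]
                have : (P : ℝ) ^ (3 / 2 : ℝ) * (P : ℝ) ^ (-(1 / 4) : ℝ) = P * (P : ℝ) ^ (1 / 4 : ℝ) := by
                  rw [← Real.rpow_add hP0]
                  have : (P : ℝ) * (P : ℝ) ^ (1 / 4 : ℝ) = (P : ℝ) ^ (1 : ℝ) * (P : ℝ) ^ (1 / 4 : ℝ) := by
                    rw [Real.rpow_one]
                  rw [this, ← Real.rpow_add hP0]
                  norm_num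
                calc (P : ℝ) * ((P : ℝ) ^ (1 / 4 : ℝ) * L)
                    = (P * (P : ℝ) ^ (1 / 4 : ℝ)) * L := by ring
                  _ = ((P : ℝ) ^ (3 / 2 : ℝ) * (P : ℝ) ^ (-(1 / 4) : ℝ)) * L := by rw [this]
                  _ = _ := by ring
            _ ≤ N * ((l₂ : ℝ) - l₁) := mul_le_mul hN1 hd hT0pos hN0.le
        · have h1 : N / (l₁ : ℝ) - N / (l₂ : ℝ) ≤ N := by
            have h2 : N / (l₁ : ℝ) ≤ N := by
              apply div_le_self hN0.le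
              have : 1 ≤ l₁ := by omega
              exact_mod_cast this
            have h3 : 0 ≤ N / (l₂ : ℝ) := by positivity
            linarith
          refine h1.trans (hN2.trans ?_)
          calc (P : ℝ) ^ C = ((P : ℝ) ^ (1 / 8 : ℝ)) ^ (8 * C) := by
                rw [← Real.rpow_mul hP0.le]
                congr 1
                ring
            _ ≤ X ^ (8 * C) := Real.rpow_le_rpow (by positivity) hXge (by linarith)
        · -- X ≤ max + 1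
          have h1 : P / l₁ ≤ max (P / l₁) (P / l₂) := le_max_left _ _
          have h2 := Nat.lt_div_mul_add (a := P) (show 0 < l₁ by omega)
          have h3 : (P : ℝ) < ((P / l₁ : ℕ) : ℝ) * l₁ + l₁ := by exact_mod_cast h2
          have h4 : X ≤ (P : ℝ) / l₁ := by
            rw [hX]
            apply div_le_div_of_nonneg_left hP0.le hl1
            exact_mod_cast h12
          have h5 : (P : ℝ) / l₁ < ((P / l₁ : ℕ) : ℝ) + 1 := by
            rw [div_lt_iff₀ hl1]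
            nlinarith
          have h6 : ((P / l₁ : ℕ) : ℝ) ≤ ((max (P / l₁) (P / l₂) : ℕ) : ℝ) := by exact_mod_cast h1
          push_cast at h6 ⊢
          linarith
        · have h1 : min (8 * P / l₁) (8 * P / l₂) ≤ 8 * P / L :=
            (min_le_left _ _).trans (Nat.div_le_div_left h11.le hLpos)
          have h2 : ((min (8 * P / l₁) (8 * P / l₂) : ℕ) : ℝ) ≤ ((8 * P / L : ℕ) : ℝ) := by
            exact_mod_cast h1
          push_cast at h2 ⊢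
          push_cast at hRcard
          linarith
      intro l₁ hl₁ l₂ hl₂ hnc
      rw [mem_Ioc] at hl₁ hl₂
      by_cases hcase : l₁ + k < l₂
      · exact main l₁ l₂ hl₁.1 hl₁.2 hl₂.1 hl₂.2 hcase
      · have hlt : l₂ + k < l₁ := by
          by_contra hcon
          apply hnc
          constructor <;> omega
        have h := main l₂ l₁ hl₂.1 hl₂.2 hl₁.1 hl₁.2 hlt
        refine le_trans (le_of_eq ?_) h
        rw [max_comm, min_comm, ← norm_sum_ee_neg]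
        congr 1
        apply sum_congr rfl
        intro b _
        congr 1
        ring)
  set S := ‖∑ l ∈ Ioc L (2 * L), (β l : ℂ) * ∑ b ∈ Ioc (P / l) (8 * P / l), (α b : ℂ) *
          ee (N / ((l * b : ℕ) : ℝ))‖ with hS
  have h1 : S ^ 2 ≤ (16 * X) * (B0 ^ 2 * (L * (L * X ^ (1 - η) + (2 * k + 1) * (16 * X)))) := by
    have hB2 : 0 ≤ B0 ^ 2 := by positivity
    beta_reduce at hpairs hcs
    have hD0 : 0 ≤ ∑ l₁ ∈ Ioc L (2 * L), ∑ l₂ ∈ Ioc L (2 * L),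
        ‖∑ b ∈ Ioc (max (P / l₁) (P / l₂)) (min (8 * P / l₁) (8 * P / l₂)),
          ee ((N / l₁ - N / l₂) / b)‖ :=
      sum_nonneg (fun _ _ => sum_nonneg (fun _ _ => norm_nonneg _))
    generalize (∑ l₁ ∈ Ioc L (2 * L), ∑ l₂ ∈ Ioc L (2 * L),
        ‖∑ b ∈ Ioc (max (P / l₁) (P / l₂)) (min (8 * P / l₁) (8 * P / l₂)),
          ee ((N / l₁ - N / l₂) / b)‖) = D at hpairs hcs hD0
    refine hcs.trans ?_
    have h2 := mul_le_mul_of_nonneg_left hpairs hB2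
    have h3 : 0 ≤ B0 ^ 2 * D := by positivity
    exact mul_le_mul hRcard h2 h3 (by positivity)
  have hXη : X ^ (1 - η) = X * X ^ (-η) := by
    rw [sub_eq_add_neg, Real.rpow_add hX0', Real.rpow_one]
  have hXη2 : X ^ (-η) ≤ 2 * (P : ℝ) ^ (-(η / 4)) := by
    -- X ≥ P^(1/4)/2
    have h2 : (P : ℝ) ^ (1 / 4 : ℝ) / 2 ≤ X := by
      rw [hX, div_le_div_iff₀ (by norm_num) (by positivity)]
      have h3 : (P : ℝ) ^ (1 / 4 : ℝ) * (L : ℝ) ≤ (P : ℝ) ^ (1 / 4 : ℝ) * (P : ℝ) ^ (3 / 4 : ℝ) :=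
        mul_le_mul_of_nonneg_left hL2 (by positivity)
      have h4 : (P : ℝ) ^ (1 / 4 : ℝ) * (P : ℝ) ^ (3 / 4 : ℝ) = P := by
        rw [← Real.rpow_add hP0]
        norm_num
      nlinarith
    have h5 : X ^ (-η) ≤ ((P : ℝ) ^ (1 / 4 : ℝ) / 2) ^ (-η) :=
      Real.rpow_le_rpow_of_nonpos (by positivity) h2 (by linarith)
    refine h5.trans ?_
    rw [Real.div_rpow (by positivity) (by norm_num), ← Real.rpow_mul hP0.le]
    have h6 : (1 / 4 : ℝ) * -η = -(η / 4) := by ring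
    rw [h6, div_le_iff₀ (by positivity)]
    have h7 : (1 : ℝ) ≤ 2 * 2 ^ (-η) := by
      have : (2 : ℝ) * 2 ^ (-η) = 2 ^ (1 - η) := by
        rw [sub_eq_add_neg, Real.rpow_add (by norm_num), Real.rpow_one]
      rw [this]
      exact Real.one_le_rpow (by norm_num) (by linarith)
    have h8 : 0 ≤ (P : ℝ) ^ (-(η / 4)) := by positivity
    calc (P : ℝ) ^ (-(η / 4)) = (P : ℝ) ^ (-(η / 4)) * 1 := (mul_one _).symm
      _ ≤ (P : ℝ) ^ (-(η / 4)) * (2 * 2 ^ (-η)) := mul_le_mul_of_nonneg_left h7 h8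
      _ = _ := by ring
  have hk1 : (2 * (k : ℝ) + 1) ≤ 3 * L * (P : ℝ) ^ (-(1 / 4) : ℝ) := by
    have h2 : (1 : ℝ) ≤ L * (P : ℝ) ^ (-(1 / 4) : ℝ) := by
      rw [Real.rpow_neg hP0.le]
      rw [← div_eq_mul_inv, le_div_iff₀ (by positivity)]
      linarith
    rw [hT0] at hkle
    linarith
  have hP14 : (P : ℝ) ^ (-(1 / 4) : ℝ) ≤ (P : ℝ) ^ (-(η / 4)) :=
    Real.rpow_le_rpow_of_exponent_le hPr (by linarith)
  have h2 : S ^ 2 ≤ B0 ^ 2 * (400 * (P : ℝ) ^ (2 - η / 4)) := by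
    refine h1.trans ?_
    have e3 : (P : ℝ) ^ (2 - η / 4) = P * P * (P : ℝ) ^ (-(η / 4)) := by
      rw [sub_eq_add_neg, Real.rpow_add hP0]
      congr 1
      rw [← sq]
      exact_mod_cast Real.rpow_natCast (P : ℝ) 2
    rw [e3]
    set p := (P : ℝ) ^ (-(η / 4)) with hp
    have hp0 : 0 ≤ p := by positivity
    have h3 : L * X ^ (1 - η) + (2 * k + 1) * (16 * X) ≤ (L * X) * (2 * p) + 3 * L * p * (16 * X) := by
      rw [hXη]
      apply add_le_add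
      · calc (L : ℝ) * (X * X ^ (-η)) = (L * X) * X ^ (-η) := by ring
          _ ≤ _ := mul_le_mul_of_nonneg_left hXη2 (by positivity)
      · apply mul_le_mul_of_nonneg_right _ (by positivity)
        refine hk1.trans ?_
        apply mul_le_mul_of_nonneg_left hP14 (by positivity)
    have h4 : (16 * X) * (B0 ^ 2 * (L * (L * X ^ (1 - η) + (2 * k + 1) * (16 * X))))
        ≤ (16 * X) * (B0 ^ 2 * (L * ((L * X) * (2 * p) + 3 * L * p * (16 * X)))) := by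
      apply mul_le_mul_of_nonneg_left _ (by positivity)
      apply mul_le_mul_of_nonneg_left _ (by positivity)
      apply mul_le_mul_of_nonneg_left h3 (by positivity)
    refine h4.trans ?_
    have e5 : (16 * X) * (B0 ^ 2 * (L * ((L * X) * (2 * p) + 3 * L * p * (16 * X))))
        = B0 ^ 2 * (200 * ((X * (2 * L)) * (X * (2 * L)) * p)) := by ring
    rw [e5, hXL]
    have : 0 ≤ B0 ^ 2 * (P * P * p) := by positivity
    nlinarith
  have h3 : S ^ 2 ≤ (B0 * (P : ℝ) ^ (1 - η / 16)) ^ 2 := by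
    refine h2.trans ?_
    rw [mul_pow]
    apply mul_le_mul_of_nonneg_left _ (by positivity)
    refine hP2.trans (le_of_eq ?_)
    rw [← Real.rpow_natCast ((P : ℝ) ^ (1 - η / 16)) 2, ← Real.rpow_mul hP0.le]
    congr 1
    push_cast
    ring
  exact le_of_sq_le_sq h3 (by positivity)

end Pool.Agent.H33
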