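import Pool.Agent.H33.Exp.TypeII

open Finset Complex Real Filter ArithmeticFunction

namespace Pool.Agent.H33

/-- Truncated Moebius function. -/
noncomputable def muS (V : ℕ) : ArithmeticFunction ℝ :=
  ⟨fun n => if n ≤ V then ((moebius n : ℤ) : ℝ) else 0, by simp⟩

/-- Tail of the Moebius function. -/
noncomputable def muL (V : ℕ) : ArithmeticFunction ℝ :=
  ⟨fun n => if n ≤ V then 0 else ((moebius n : ℤ) : ℝ), by simp⟩

/-- Truncated von Mangoldt function. -/
noncomputable def lamS (V : ℕ) : ArithmeticFunction ℝ :=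
  ⟨fun n => if n ≤ V then vonMangoldt n else 0, by simp⟩

/-- Tail of the von Mangoldt function. -/
noncomputable def lamL (V : ℕ) : ArithmeticFunction ℝ :=
  ⟨fun n => if n ≤ V then 0 else vonMangoldt n, by simp⟩

lemma muS_add_muL (V : ℕ) : muS V + muL V = ((moebius : ArithmeticFunction ℤ) : ArithmeticFunction ℝ) := by
  ext n
  rw [ArithmeticFunction.add_apply]
  simp only [muS, muL, coe_mk, intCoe_apply]
  split_ifs <;> simp

lemma lamS_add_lamL (V : ℕ) : lamS V + lamL V = vonMangoldt := by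
  ext n
  rw [ArithmeticFunction.add_apply]
  simp only [lamS, lamL, coe_mk]
  split_ifs <;> simp

/-- Vaughan's identity. -/
lemma vaughan (V : ℕ) : lamL V = muS V * ArithmeticFunction.log
    - (muS V * lamS V) * ((zeta : ArithmeticFunction ℕ) : ArithmeticFunction ℝ)
    + (((zeta : ArithmeticFunction ℕ) : ArithmeticFunction ℝ) * lamL V) * muL V := by
  have h1 : ((moebius : ArithmeticFunction ℤ) : ArithmeticFunction ℝ)
      * ((zeta : ArithmeticFunction ℕ) : ArithmeticFunction ℝ) = 1 := coe_moebius_mul_coe_zeta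
  have h2 : ((zeta : ArithmeticFunction ℕ) : ArithmeticFunction ℝ) * vonMangoldt
      = ArithmeticFunction.log := zeta_mul_vonMangoldt
  have h3 := muS_add_muL V
  have h4 := lamS_add_lamL V
  rw [← h2]
  set z := ((zeta : ArithmeticFunction ℕ) : ArithmeticFunction ℝ)
  rw [← h4]
  rw [← h3] at h1
  calc lamL V = ((muS V + muL V) * z) * lamL V := by rw [h1, one_mul]
    _ = _ := by ring

lemma vaughan_apply (V n : ℕ) (hn : V < n) : vonMangoldt n
    = (muS V * ArithmeticFunction.log) n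
      - ((muS V * lamS V) * ((zeta : ArithmeticFunction ℕ) : ArithmeticFunction ℝ)) n
      + ((((zeta : ArithmeticFunction ℕ) : ArithmeticFunction ℝ) * lamL V) * muL V) n := by
  have h := congrArg (fun f : ArithmeticFunction ℝ => f n) (vaughan V)
  simp only [ArithmeticFunction.add_apply] at h
  have h2 : lamL V n = vonMangoldt n := by
    simp only [lamL, coe_mk]
    rw [if_neg (by omega)]
  rw [h2] at h
  rw [h]
  rfl

lemma sum_conv (f g : ArithmeticFunction ℝ) (F : ℕ → ℂ) (P Q : ℕ) :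
    ∑ n ∈ Ioc P Q, (((f * g) n : ℝ) : ℂ) * F n
      = ∑ d ∈ Ioc 0 Q, ((f d : ℝ) : ℂ) * ∑ m ∈ Ioc (P / d) (Q / d), ((g m : ℝ) : ℂ) * F (d * m) := by
  have e1 : ∑ n ∈ Ioc P Q, (((f * g) n : ℝ) : ℂ) * F n
      = ∑ n ∈ Ioc P Q, ∑ x ∈ n.divisorsAntidiagonal,
        ((f x.1 : ℝ) : ℂ) * (((g x.2 : ℝ) : ℂ) * F (x.1 * x.2)) := by
    apply sum_congr rfl
    intro n _
    rw [ArithmeticFunction.mul_apply]
    push_cast
    rw [sum_mul]
    apply sum_congr rfl
    intro x hx
    rw [Nat.mem_divisorsAntidiagonal] at hx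
    rw [hx.1, mul_assoc]
  have e2 : ∑ d ∈ Ioc 0 Q, ((f d : ℝ) : ℂ) * ∑ m ∈ Ioc (P / d) (Q / d), ((g m : ℝ) : ℂ) * F (d * m)
      = ∑ d ∈ Ioc 0 Q, ∑ m ∈ Ioc (P / d) (Q / d), ((f d : ℝ) : ℂ) * (((g m : ℝ) : ℂ) * F (d * m)) := by
    apply sum_congr rfl
    intro d _
    rw [mul_sum]
  rw [e1, e2, sum_sigma', sum_sigma']
  refine sum_bij' (fun x _ => ⟨x.2.1, x.2.2⟩) (fun y _ => ⟨y.1 * y.2, (y.1, y.2)⟩) ?_ ?_ ?_ ?_ ?_
  · rintro ⟨n, x⟩ hx
    rw [mem_sigma, mem_Ioc, Nat.mem_divisorsAntidiagonal] at hx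
    obtain ⟨⟨h1, h2⟩, h3, h4⟩ := hx
    simp only at h1 h2 h3 h4
    have hx1 : 0 < x.1 := by
      rcases Nat.eq_zero_or_pos x.1 with h | h
      · rw [h, zero_mul] at h3
        omega
      · exact h
    have hx2 : 0 < x.2 := by
      rcases Nat.eq_zero_or_pos x.2 with h | h
      · rw [h, mul_zero] at h3
        omega
      · exact h
    rw [mem_sigma, mem_Ioc, mem_Ioc]
    refine ⟨⟨hx1, ?_⟩, ?_, ?_⟩
    · calc x.1 = x.1 * 1 := (mul_one _).symm
        _ ≤ x.1 * x.2 := Nat.mul_le_mul_left _ hx2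
        _ ≤ Q := by rw [h3]; exact h2
    · rw [Nat.div_lt_iff_lt_mul hx1, mul_comm, h3]
      exact h1
    · rw [Nat.le_div_iff_mul_le hx1, mul_comm, h3]
      exact h2
  · rintro ⟨d, m⟩ hy
    rw [mem_sigma, mem_Ioc, mem_Ioc] at hy
    obtain ⟨⟨h1, h2⟩, h3, h4⟩ := hy
    simp only at h1 h2 h3 h4
    rw [mem_sigma, mem_Ioc, Nat.mem_divisorsAntidiagonal]
    rw [Nat.div_lt_iff_lt_mul h1] at h3
    rw [Nat.le_div_iff_mul_le h1] at h4
    simp only
    refine ⟨⟨by rw [mul_comm]; exact h3, by rw [mul_comm]; exact h4⟩, trivial, ?_⟩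
    have : 0 < m * d := by omega
    rw [mul_comm]
    omega
  · rintro ⟨n, x⟩ hx
    rw [mem_sigma, mem_Ioc, Nat.mem_divisorsAntidiagonal] at hx
    obtain ⟨_, h3, _⟩ := hx
    simp only at h3
    simp only [Prod.mk.eta]
    subst h3
    rfl
  · rintro ⟨d, m⟩ _
    rfl
  · rintro ⟨n, x⟩ _
    rfl

lemma abs_muL_le (V n : ℕ) : |muL V n| ≤ 1 := by
  simp only [muL, coe_mk]
  split_ifs
  · simp
  · have := abs_moebius_le_one (n := n)
    exact_mod_cast this

lemma abs_muS_le (V n : ℕ) : |muS V n| ≤ 1 := by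
  simp only [muS, coe_mk]
  split_ifs
  · have := abs_moebius_le_one (n := n)
    exact_mod_cast this
  · simp

lemma muS_eq_zero {V n : ℕ} (h : V < n) : muS V n = 0 := by
  simp only [muS, coe_mk]
  rw [if_neg (by omega)]

lemma muL_eq_zero {V n : ℕ} (h : n ≤ V) : muL V n = 0 := by
  simp only [muL, coe_mk]
  rw [if_pos h]

lemma lamS_nonneg (V n : ℕ) : 0 ≤ lamS V n := by
  simp only [lamS, coe_mk]
  split_ifs
  · exact vonMangoldt_nonneg
  · exact le_rfl

lemma lamS_le (V n : ℕ) : lamS V n ≤ vonMangoldt n := by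
  simp only [lamS, coe_mk]
  split_ifs
  · exact le_rfl
  · exact vonMangoldt_nonneg

lemma lamL_nonneg (V n : ℕ) : 0 ≤ lamL V n := by
  simp only [lamL, coe_mk]
  split_ifs
  · exact le_rfl
  · exact vonMangoldt_nonneg

lemma lamL_le (V n : ℕ) : lamL V n ≤ vonMangoldt n := by
  simp only [lamL, coe_mk]
  split_ifs
  · exact vonMangoldt_nonneg
  · exact le_rfl

lemma sum_antidiag_snd_vonMangoldt (n : ℕ) :
    ∑ x ∈ n.divisorsAntidiagonal, vonMangoldt x.2 = Real.log n := by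
  have h : ∑ x ∈ n.divisorsAntidiagonal, vonMangoldt x.2
      = ∑ i ∈ n.divisors, vonMangoldt i := Nat.sum_divisorsAntidiagonal' (fun _ i => vonMangoldt i)
  rw [h]
  exact vonMangoldt_sum

lemma abs_gamma_le (V n : ℕ) : |(muS V * lamS V) n| ≤ Real.log n := by
  rw [ArithmeticFunction.mul_apply]
  refine (abs_sum_le_sum_abs _ _).trans ?_
  rw [← sum_antidiag_snd_vonMangoldt]
  apply sum_le_sum
  intro x _
  rw [abs_mul, abs_of_nonneg (lamS_nonneg V x.2)]
  have h1 := abs_muS_le V x.1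
  have h2 := lamS_le V x.2
  have h3 := lamS_nonneg V x.2
  nlinarith [abs_nonneg (muS V x.1)]

lemma gamma_eq_zero {V n : ℕ} (h : V * V < n) : (muS V * lamS V) n = 0 := by
  rw [ArithmeticFunction.mul_apply]
  apply sum_eq_zero
  intro x hx
  rw [Nat.mem_divisorsAntidiagonal] at hx
  by_cases h1 : x.1 ≤ V
  · by_cases h2 : x.2 ≤ V
    · exfalso
      have := Nat.mul_le_mul h1 h2
      omega
    · simp only [lamS, coe_mk]
      rw [if_neg h2, mul_zero]
  · rw [muS_eq_zero (by omega), zero_mul]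

lemma abs_beta_le (V n : ℕ) :
    |(((zeta : ArithmeticFunction ℕ) : ArithmeticFunction ℝ) * lamL V) n| ≤ Real.log n := by
  rw [ArithmeticFunction.mul_apply]
  refine (abs_sum_le_sum_abs _ _).trans ?_
  rw [← sum_antidiag_snd_vonMangoldt]
  apply sum_le_sum
  intro x _
  rw [abs_mul, abs_of_nonneg (lamL_nonneg V x.2)]
  have h1 : |((zeta : ArithmeticFunction ℕ) : ArithmeticFunction ℝ) x.1| ≤ 1 := by
    rw [natCoe_apply, zeta_apply]
    split_ifs <;> simp
  have h2 := lamL_le V x.2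
  have h3 := lamL_nonneg V x.2
  nlinarith [abs_nonneg (((zeta : ArithmeticFunction ℕ) : ArithmeticFunction ℝ) x.1)]

lemma beta_eq_zero {V n : ℕ} (h : n ≤ V) :
    (((zeta : ArithmeticFunction ℕ) : ArithmeticFunction ℝ) * lamL V) n = 0 := by
  rw [ArithmeticFunction.mul_apply]
  apply sum_eq_zero
  intro x hx
  rw [Nat.mem_divisorsAntidiagonal] at hx
  have hx1 : 0 < x.1 := by
    rcases Nat.eq_zero_or_pos x.1 with h' | h'
    · rw [h', zero_mul] at hx
      exact absurd hx.1.symm hx.2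
    · exact h'
  have h2 : x.2 ≤ V := by
    have : x.2 ≤ x.1 * x.2 := Nat.le_mul_of_pos_left _ hx1
    omega
  simp only [lamL, coe_mk]
  rw [if_pos h2, mul_zero]

end Pool.Agent.H33
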