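import Pool.Agent.H33.Exp.KL

/-!
The van der Corput (Weyl differencing) inequality.
-/

open Finset Complex Real

namespace Pool.Agent.H33

lemma sum_Ico_shift (z : ℤ → ℂ) (a b c : ℤ) :
    ∑ m ∈ Ico a b, z (m + c) = ∑ n ∈ Ico (a + c) (b + c), z n := by
  rw [← Finset.sum_Ico_add' z a b c]

lemma sum_Ico_support (z : ℤ → ℂ) (X : ℕ) (hz : ∀ n, z n ≠ 0 → 0 ≤ n ∧ n < X)
    {a b : ℤ} (ha : a ≤ 0) (hb : (X : ℤ) ≤ b) :
    ∑ n ∈ Ico a b, z n = ∑ n ∈ Ico (0 : ℤ) X, z n := by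
  symm
  apply sum_subset
  · intro n hn
    rw [mem_Ico] at hn ⊢
    constructor <;> omega
  · intro n _ hn
    by_contra h
    apply hn
    rw [mem_Ico]
    exact hz n h

lemma sum_abs_diff_le (D : ℕ → ℝ) (hD : ∀ h, 0 ≤ D h) (H j : ℕ) (hj : j < H) :
    ∑ i ∈ range H, D (if i ≤ j then j - i else i - j) ≤ D 0 + 2 * ∑ h ∈ Ico 1 H, D h := by
  have hsplit : range H = Ico 0 (j + 1) ∪ Ico (j + 1) H := by
    rw [range_eq_Ico, Ico_union_Ico_eq_Ico (by omega) (by omega)]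
  rw [hsplit, sum_union (Ico_disjoint_Ico_consecutive _ _ _)]
  have h1 : ∑ i ∈ Ico 0 (j + 1), D (if i ≤ j then j - i else i - j)
      = ∑ h ∈ range (j + 1), D h := by
    rw [← range_eq_Ico, ← sum_range_reflect]
    apply sum_congr rfl
    intro i hi
    rw [mem_range] at hi
    rw [if_pos (by omega)]
    congr 1
    omega
  have h2 : ∑ i ∈ Ico (j + 1) H, D (if i ≤ j then j - i else i - j)
      = ∑ h ∈ Ico 1 (H - j), D h := by
    have : ∑ i ∈ Ico (j + 1) H, D (if i ≤ j then j - i else i - j)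
        = ∑ i ∈ Ico (1 + j) (H - j + j), D (i - j) := by
      rw [add_comm 1 j, Nat.sub_add_cancel hj.le]
      apply sum_congr rfl
      intro i hi
      rw [mem_Ico] at hi
      rw [if_neg (by omega)]
    rw [this, ← Finset.sum_Ico_add' (fun i => D (i - j)) 1 (H - j) j]
    apply sum_congr rfl
    intro i _
    simp
  rw [h1, h2, sum_range_succ', ]
  have h3 : ∑ k ∈ range j, D (k + 1) ≤ ∑ h ∈ Ico 1 H, D h := by
    rw [range_eq_Ico, Finset.sum_Ico_add' D 0 j 1]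
    apply sum_le_sum_of_subset_of_nonneg
    · intro i hi
      rw [mem_Ico] at hi ⊢
      omega
    · intro i _ _
      exact hD i
  have h4 : ∑ h ∈ Ico 1 (H - j), D h ≤ ∑ h ∈ Ico 1 H, D h := by
    apply sum_le_sum_of_subset_of_nonneg
    · intro i hi
      rw [mem_Ico] at hi ⊢
      omega
    · intro i _ _
      exact hD i
  linarith

/-- van der Corput's inequality. -/
theorem vdc_int (z : ℤ → ℂ) (X H : ℕ) (hz : ∀ n, z n ≠ 0 → 0 ≤ n ∧ n < X) (hH : 1 ≤ H) :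
    (H : ℝ) * ‖∑ n ∈ Ico (0 : ℤ) X, z n‖ ^ 2 ≤ ((X : ℝ) + H) *
      (‖∑ n ∈ Ico (0 : ℤ) X, z (n + (0 : ℕ)) * (starRingEnd ℂ) (z n)‖
        + 2 * ∑ h ∈ Ico 1 H, ‖∑ n ∈ Ico (0 : ℤ) X, z (n + (h : ℕ)) * (starRingEnd ℂ) (z n)‖) := by
  classical
  set S := ∑ n ∈ Ico (0 : ℤ) X, z n with hS
  set D : ℕ → ℝ := fun h => ‖∑ n ∈ Ico (0 : ℤ) X, z (n + (h : ℕ)) * (starRingEnd ℂ) (z n)‖ with hD
  set U := Ico (-(H : ℤ)) X with hU
  set y : ℤ → ℂ := fun m => ∑ j ∈ range H, z (m + (j : ℕ)) with hy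
  have hcard : ((U.card : ℕ) : ℝ) = (X : ℝ) + H := by
    rw [hU, Int.card_Ico]
    have : ((X : ℤ) - -(H : ℤ)).toNat = X + H := by omega
    rw [this]
    push_cast
    ring
  have step1 : ∑ m ∈ U, y m = (H : ℂ) * S := by
    rw [hy, sum_comm]
    have : ∀ j ∈ range H, ∑ m ∈ U, z (m + (j : ℕ)) = S := by
      intro j hj
      rw [mem_range] at hj
      rw [hU, sum_Ico_shift, sum_Ico_support z X hz (by omega) (by omega)]
    rw [sum_congr rfl this, sum_const, card_range, nsmul_eq_mul]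
  have step2 : ((H : ℝ) * ‖S‖) ^ 2 ≤ ((X : ℝ) + H) * ∑ m ∈ U, ‖y m‖ ^ 2 := by
    have h1 : (H : ℝ) * ‖S‖ ≤ ∑ m ∈ U, ‖y m‖ := by
      have : (H : ℝ) * ‖S‖ = ‖∑ m ∈ U, y m‖ := by
        rw [step1, norm_mul, Complex.norm_natCast]
      rw [this]
      exact norm_sum_le _ _
    calc ((H : ℝ) * ‖S‖) ^ 2 ≤ (∑ m ∈ U, ‖y m‖) ^ 2 := by
          apply pow_le_pow_left₀ (by positivity) h1
      _ ≤ (U.card : ℝ) * ∑ m ∈ U, ‖y m‖ ^ 2 := sq_sum_le_card_mul_sum_sq
      _ = _ := by rw [hcard]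
  have corr : ∀ i j : ℕ, i < H → j < H →
      ‖∑ m ∈ U, z (m + (j : ℕ)) * (starRingEnd ℂ) (z (m + (i : ℕ)))‖
        = D (if i ≤ j then j - i else i - j) := by
    have base : ∀ i j : ℕ, i < H → j < H → i ≤ j →
        ‖∑ m ∈ U, z (m + (j : ℕ)) * (starRingEnd ℂ) (z (m + (i : ℕ)))‖ = D (j - i) := by
      intro i j hi hj hij
      have e1 : ∑ m ∈ U, z (m + (j : ℕ)) * (starRingEnd ℂ) (z (m + (i : ℕ)))
          = ∑ m ∈ U, (fun n : ℤ => z (n + ((j - i : ℕ) : ℤ)) * (starRingEnd ℂ) (z n)) (m + (i : ℕ)) := by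
        apply sum_congr rfl
        intro m _
        simp only
        congr 2
        push_cast [Nat.cast_sub hij]
        ring
      rw [e1, hU, sum_Ico_shift (fun n : ℤ => z (n + ((j - i : ℕ) : ℤ)) * (starRingEnd ℂ) (z n))]
      rw [sum_Ico_support (fun n : ℤ => z (n + ((j - i : ℕ) : ℤ)) * (starRingEnd ℂ) (z n)) X _
        (by omega) (by omega)]
      intro n hn
      apply hz n
      intro h
      apply hn
      simp [h]
    intro i j hi hj
    by_cases hij : i ≤ j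
    · rw [if_pos hij]
      exact base i j hi hj hij
    · rw [if_neg hij, ← base j i hj hi (by omega), ← Complex.norm_conj, map_sum]
      congr 1
      apply sum_congr rfl
      intro m _
      rw [map_mul, Complex.conj_conj, mul_comm]
  have step3 : ∑ m ∈ U, ‖y m‖ ^ 2 ≤ (H : ℝ) * (D 0 + 2 * ∑ h ∈ Ico 1 H, D h) := by
    have e1 : ((∑ m ∈ U, ‖y m‖ ^ 2 : ℝ) : ℂ)
        = ∑ j ∈ range H, ∑ i ∈ range H,
            ∑ m ∈ U, z (m + (j : ℕ)) * (starRingEnd ℂ) (z (m + (i : ℕ))) := by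
      push_cast
      have : ∀ m ∈ U, ((‖y m‖ : ℂ)) ^ 2
          = ∑ j ∈ range H, ∑ i ∈ range H, z (m + (j : ℕ)) * (starRingEnd ℂ) (z (m + (i : ℕ))) := by
        intro m _
        rw [← Complex.mul_conj', hy]
        simp only
        rw [map_sum, sum_mul_sum]
      rw [sum_congr rfl this, sum_comm]
      apply sum_congr rfl
      intro j _
      rw [sum_comm]
    have e2 : ∑ m ∈ U, ‖y m‖ ^ 2 = ‖((∑ m ∈ U, ‖y m‖ ^ 2 : ℝ) : ℂ)‖ := by
      rw [Complex.norm_real, Real.norm_eq_abs, abs_of_nonneg]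
      exact sum_nonneg (fun m _ => by positivity)
    rw [e2, e1]
    refine (norm_sum_le _ _).trans ?_
    have : ∀ j ∈ range H, ‖∑ i ∈ range H,
            ∑ m ∈ U, z (m + (j : ℕ)) * (starRingEnd ℂ) (z (m + (i : ℕ)))‖
          ≤ D 0 + 2 * ∑ h ∈ Ico 1 H, D h := by
      intro j hj
      rw [mem_range] at hj
      refine (norm_sum_le _ _).trans ?_
      refine le_trans (le_of_eq ?_) (sum_abs_diff_le D (fun h => norm_nonneg _) H j hj)
      apply sum_congr rfl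
      intro i hi
      rw [mem_range] at hi
      exact corr i j hi hj
    refine (sum_le_sum this).trans ?_
    rw [sum_const, card_range, nsmul_eq_mul]
  have hH' : (0 : ℝ) < H := by exact_mod_cast hH
  have hXH : (0 : ℝ) ≤ (X : ℝ) + H := by positivity
  have h5 : ((H : ℝ) * ‖S‖) ^ 2 ≤ ((X : ℝ) + H) * ((H : ℝ) * (D 0 + 2 * ∑ h ∈ Ico 1 H, D h)) :=
    step2.trans (mul_le_mul_of_nonneg_left step3 hXH)
  have h6 : (H : ℝ) * ((H : ℝ) * ‖S‖ ^ 2) ≤ (H : ℝ) * (((X : ℝ) + H) * (D 0 + 2 * ∑ h ∈ Ico 1 H, D h)) := by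
    calc (H : ℝ) * ((H : ℝ) * ‖S‖ ^ 2) = ((H : ℝ) * ‖S‖) ^ 2 := by ring
      _ ≤ _ := h5
      _ = _ := by ring
  exact le_of_mul_le_mul_left h6 hH'

/-- van der Corput's inequality for sums of `ee (g n)`. -/
theorem vdc_ee (g : ℕ → ℝ) (X H : ℕ) (hH : 1 ≤ H) :
    (H : ℝ) * ‖∑ n ∈ range X, ee (g n)‖ ^ 2 ≤ ((X : ℝ) + H) *
      ((X : ℝ) + 2 * ∑ h ∈ Ico 1 H, ‖∑ n ∈ range (X - h), ee (g (n + h) - g n)‖) := by
  classical
  set z : ℤ → ℂ := fun n => if 0 ≤ n ∧ n < X then ee (g n.toNat) else 0 with hz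
  have hsupp : ∀ n, z n ≠ 0 → 0 ≤ n ∧ n < X := by
    intro n hn
    by_contra h
    apply hn
    simp only [hz]
    rw [if_neg h]
  have hcast : ∀ (f : ℤ → ℂ) (Y : ℕ), ∑ n ∈ Ico (0 : ℤ) Y, f n = ∑ n ∈ range Y, f (n : ℤ) := by
    intro f Y
    induction Y with
    | zero => simp
    | succ Y ih =>
      rw [sum_range_succ, ← ih]
      have : Ico (0 : ℤ) ((Y + 1 : ℕ) : ℤ) = insert (Y : ℤ) (Ico (0 : ℤ) Y) := by
        ext n
        rw [mem_insert, mem_Ico, mem_Ico]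
        push_cast
        omega
      rw [this, sum_insert (by simp), add_comm]
  have h := vdc_int z X H hsupp hH
  have e0 : ∑ n ∈ Ico (0 : ℤ) X, z n = ∑ n ∈ range X, ee (g n) := by
    rw [hcast]
    apply sum_congr rfl
    intro n hn
    rw [mem_range] at hn
    simp only [hz]
    rw [if_pos (by omega)]
    simp
  have eh : ∀ h : ℕ, ∑ n ∈ Ico (0 : ℤ) X, z (n + (h : ℕ)) * (starRingEnd ℂ) (z n)
      = ∑ n ∈ range (X - h), ee (g (n + h) - g n) := by
    intro h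
    rw [hcast]
    have : range (X - h) ⊆ range X := by
      intro i hi
      rw [mem_range] at hi ⊢
      omega
    rw [← sum_subset this]
    · apply sum_congr rfl
      intro n hn
      rw [mem_range] at hn
      simp only [hz]
      rw [if_pos (by omega), if_pos (by omega), ee_sub]
      have e1 : ((n : ℤ) + (h : ℕ)).toNat = n + h := by omega
      rw [e1, Int.toNat_natCast]
    · intro n hn hn'
      rw [mem_range] at hn hn'
      simp only [hz]
      rw [if_neg (by omega)]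
      simp
  rw [e0] at h
  simp only [eh] at h
  have e3 : ‖∑ n ∈ range (X - 0), ee (g (n + 0) - g n)‖ = (X : ℝ) := by
    simp [ee_zero]
  rw [e3] at h
  exact h

end Pool.Agent.H33
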