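import Pool.Agent.H33.Exp.Cls

/-!
Power saving for `∑ ee (N * gS L n)` by repeated Weyl differencing and Kusmin-Landau.
-/

open Finset Complex Real Filter

namespace Pool.Agent.H33

lemma norm_sum_ee_neg {ι : Type*} (s : Finset ι) (g : ι → ℝ) :
    ‖∑ n ∈ s, ee (-(g n))‖ = ‖∑ n ∈ s, ee (g n)‖ := by
  rw [← Complex.norm_conj, map_sum]
  congr 1
  apply sum_congr rfl
  intro n _
  rw [← ee_neg, neg_neg]

lemma norm_sum_ee_le {ι : Type*} (s : Finset ι) (g : ι → ℝ) :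
    ‖∑ n ∈ s, ee (g n)‖ ≤ (s.card : ℝ) := by
  refine (norm_sum_le _ _).trans ?_
  simp [norm_ee]

lemma base_bound {m c : ℕ} {A X K N : ℝ} {L : List (List ℝ)} (hL : Cls m c A L) (hm : 1 ≤ m)
    (hc : 1 ≤ c) (hX : 1 ≤ X) (hA : 0 ≤ A) (hAX : A ≤ K * X) (hN : 0 < N) (a b : ℕ)
    (ha : X ≤ a) (hb : (b : ℝ) ≤ K * X)
    (hup : N * ((c * m : ℕ) * (X⁻¹) ^ (m + 1)) ≤ 1 / 2) :
    ‖∑ n ∈ Ico a b, ee (N * gS L n)‖
      ≤ 1 / (N * ((c * m : ℕ) * (((2 * K + 1) * X)⁻¹) ^ (m + 1))) := by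
  rcases Nat.lt_or_ge a b with hab | hab
  swap
  · rw [Ico_eq_empty (by omega)]
    simp only [sum_empty, norm_zero]
    have hK : 0 ≤ K * X := by linarith
    have : 0 ≤ (2 * K + 1) * X := by nlinarith
    positivity
  have hab' : (a : ℝ) ≤ b := by exact_mod_cast hab.le
  have hKX : X ≤ K * X := by linarith
  have hD := dL_spec hL (zero_le_one' ℝ)
  have hcm : 1 ≤ c * m := Nat.one_le_iff_ne_zero.mpr (Nat.mul_ne_zero (by omega) (by omega))
  have hcm' : (1 : ℝ) ≤ ((c * m : ℕ) : ℝ) := by exact_mod_cast hcm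
  have hdiff : ∀ n : ℕ, N * gS L ((a + n : ℕ) : ℝ) - N * gS L ((a + (n + 1) : ℕ) : ℝ)
      = N * gS (dL 1 L) ((a + n : ℕ) : ℝ) := by
    intro n
    have hpos : (0 : ℝ) < ((a + n : ℕ) : ℝ) := by
      push_cast
      have : (0 : ℝ) ≤ n := Nat.cast_nonneg n
      linarith
    have h1 := gS_diff 1 ((a + n : ℕ) : ℝ) hpos (by norm_num) L
      (fun l hl a ha => ((hL.2 l hl).2 a ha).1)
    have e1 : ((a + (n + 1) : ℕ) : ℝ) = ((a + n : ℕ) : ℝ) + 1 := by push_cast; ring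
    rw [e1, ← mul_sub, h1]
    ring
  rw [← norm_sum_ee_neg, Finset.sum_Ico_eq_sum_range]
  apply kusmin_landau (fun n => -(N * gS L ((a + n : ℕ) : ℝ))) (b - a)
  · have : 0 < (2 * K + 1) * X := by nlinarith
    positivity
  · intro n hn
    have e : -(N * gS L ((a + (n + 1) : ℕ) : ℝ)) - -(N * gS L ((a + n : ℕ) : ℝ))
        = N * gS (dL 1 L) ((a + n : ℕ) : ℝ) := by
      rw [← hdiff]
      ring
    rw [e]
    apply mul_le_mul_of_nonneg_left _ hN.le
    have hpos : (0 : ℝ) < ((a + n : ℕ) : ℝ) := by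
      push_cast
      have : (0 : ℝ) ≤ n := Nat.cast_nonneg n
      linarith
    refine le_trans ?_ (gS_bounds hD hpos).1
    apply mul_le_mul_of_nonneg_left _ (by positivity)
    apply pow_le_pow_left₀
    · have : 0 < (2 * K + 1) * X := by nlinarith
      positivity
    · apply inv_anti₀ (by linarith)
      have : ((a + n : ℕ) : ℝ) ≤ b := by
        have : a + n ≤ b := by omega
        exact_mod_cast this
      nlinarith
  · intro n hn
    have e : -(N * gS L ((a + (n + 1) : ℕ) : ℝ)) - -(N * gS L ((a + n : ℕ) : ℝ))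
        = N * gS (dL 1 L) ((a + n : ℕ) : ℝ) := by
      rw [← hdiff]
      ring
    rw [e]
    refine le_trans ?_ hup
    apply mul_le_mul_of_nonneg_left _ hN.le
    have hge : X ≤ ((a + n : ℕ) : ℝ) := by
      push_cast
      have : (0 : ℝ) ≤ n := Nat.cast_nonneg n
      linarith
    refine (gS_bounds hD (by linarith)).2.trans ?_
    apply mul_le_mul_of_nonneg_left _ (by positivity)
    apply pow_le_pow_left₀ (by positivity)
    exact inv_anti₀ (by linarith) hge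
  · intro n hn
    have e : -(N * gS L ((a + (n + 1) : ℕ) : ℝ)) - -(N * gS L ((a + n : ℕ) : ℝ))
        = N * gS (dL 1 L) ((a + n : ℕ) : ℝ) := by
      rw [← hdiff]
      ring
    have e' : -(N * gS L ((a + (n + 2) : ℕ) : ℝ)) - -(N * gS L ((a + (n + 1) : ℕ) : ℝ))
        = N * gS (dL 1 L) ((a + (n + 1) : ℕ) : ℝ) := by
      rw [← hdiff]
      ring
    rw [e, e']
    apply mul_le_mul_of_nonneg_left _ hN.le
    have hpos : (0 : ℝ) < ((a + n : ℕ) : ℝ) := by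
      push_cast
      have : (0 : ℝ) ≤ n := Nat.cast_nonneg n
      linarith
    have e1 : ((a + (n + 1) : ℕ) : ℝ) = ((a + n : ℕ) : ℝ) + 1 := by push_cast; ring
    rw [e1]
    exact gS_antitone hD hpos (by linarith) (by norm_num)

lemma weyl_step {m c : ℕ} {A : ℝ} {L : List (List ℝ)} (hL : Cls m c A L) (N : ℝ)
    (a b H : ℕ) (ha : 1 ≤ a) (hH : 1 ≤ H) :
    (H : ℝ) * ‖∑ n ∈ Ico a b, ee (N * gS L n)‖ ^ 2 ≤ (((b - a : ℕ) : ℝ) + H) *
      (((b - a : ℕ) : ℝ) + 2 * ∑ h ∈ Ico 1 H,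
        ‖∑ n ∈ Ico a (b - h), ee ((N * h) * gS (dL h L) n)‖) := by
  have h := vdc_ee (fun n => N * gS L ((a + n : ℕ) : ℝ)) (b - a) H hH
  rw [Finset.sum_Ico_eq_sum_range]
  refine h.trans (le_of_eq ?_)
  congr 3
  apply sum_congr rfl
  intro k _
  rw [Finset.sum_Ico_eq_sum_range]
  have e1 : b - k - a = b - a - k := by omega
  rw [e1, ← norm_sum_ee_neg]
  congr 1
  apply sum_congr rfl
  intro n _
  congr 1
  have hpos : (0 : ℝ) < ((a + n : ℕ) : ℝ) := by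
    have : 0 < a + n := by omega
    exact_mod_cast this
  have h1 := gS_diff (k : ℝ) ((a + n : ℕ) : ℝ) hpos (by positivity) L
      (fun l hl a ha => ((hL.2 l hl).2 a ha).1)
  have e2 : ((a + (n + k) : ℕ) : ℝ) = ((a + n : ℕ) : ℝ) + k := by push_cast; ring
  rw [e2]
  have : N * (k : ℝ) * gS (dL (k : ℝ) L) ((a + n : ℕ) : ℝ)
      = N * (gS L ((a + n : ℕ) : ℝ) - gS L (((a + n : ℕ) : ℝ) + k)) := by
    rw [h1]
    ring
  rw [this]
  ring

lemma ev_rpow (C : ℝ) {s t : ℝ} (h : s < t) : ∀ᶠ X : ℝ in atTop, C * X ^ s ≤ X ^ t := by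
  have h1 := (tendsto_rpow_atTop (sub_pos.mpr h)).eventually_ge_atTop C
  filter_upwards [h1, eventually_gt_atTop 0] with X hX hX0
  have : X ^ t = X ^ (t - s) * X ^ s := by
    rw [← Real.rpow_add hX0]
    congr 1
    ring
  rw [this]
  apply mul_le_mul_of_nonneg_right hX (by positivity)

/-- Power saving for exponential sums with amplitude at most `X ^ (7/8 + 3 i / 4)`. -/
def WProp (i : ℕ) : Prop := ∀ m c K : ℕ, 1 ≤ m → 1 ≤ c → 1 ≤ K → ∃ η : ℝ, 0 < η ∧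
  ∀ᶠ X : ℝ in atTop, ∀ (L : List (List ℝ)) (A : ℝ), 0 ≤ A → A ≤ K * X → Cls m c A L →
    ∀ N : ℝ, X ^ ((m : ℝ) + 1 / 16) ≤ N → N ≤ X ^ ((m : ℝ) + 7 / 8 + 3 / 4 * i) →
      ∀ a b : ℕ, X ≤ a → (b : ℝ) ≤ K * X → ‖∑ n ∈ Ico a b, ee (N * gS L n)‖ ≤ X ^ (1 - η)

lemma W_zero : WProp 0 := by
  intro m c K hm hc hK
  refine ⟨1 / 32, by norm_num, ?_⟩
  have e1 := ev_rpow (2 * (c * m : ℕ)) (show (-(1 / 8) : ℝ) < 0 by norm_num)
  have e2 := ev_rpow ((2 * (K : ℝ) + 1) ^ (m + 1)) (show (15 / 16 : ℝ) < 1 - 1 / 32 by norm_num)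
  filter_upwards [e1, e2, eventually_ge_atTop 1] with X h1 h2 hX
  intro L A hA hAX hL N hN1 hN2 a b ha hb
  have hX0 : (0 : ℝ) < X := by linarith
  have hN : 0 < N := lt_of_lt_of_le (by positivity) hN1
  have hcm : 1 ≤ c * m := Nat.one_le_iff_ne_zero.mpr (Nat.mul_ne_zero (by omega) (by omega))
  have hcm' : (1 : ℝ) ≤ ((c * m : ℕ) : ℝ) := by exact_mod_cast hcm
  have hup : N * ((c * m : ℕ) * (X⁻¹) ^ (m + 1)) ≤ 1 / 2 := by
    have e : (X⁻¹) ^ (m + 1) = X ^ (-((m : ℝ) + 1)) := by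
      rw [Real.rpow_neg hX0.le, inv_pow]
      congr 1
      have : ((m : ℝ) + 1) = ((m + 1 : ℕ) : ℝ) := by push_cast; ring
      rw [this, Real.rpow_natCast]
    rw [e]
    have h3 : N * X ^ (-((m : ℝ) + 1)) ≤ X ^ (-(1 / 8) : ℝ) := by
      have : X ^ (-(1 / 8) : ℝ) = X ^ ((m : ℝ) + 7 / 8 + 3 / 4 * (0 : ℕ)) * X ^ (-((m : ℝ) + 1)) := by
        rw [← Real.rpow_add hX0]
        congr 1
        push_cast
        ring
      rw [this]
      apply mul_le_mul_of_nonneg_right hN2 (by positivity)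
    have h4 : (2 * (c * m : ℕ) : ℝ) * X ^ (-(1 / 8) : ℝ) ≤ 1 := by
      simpa using h1
    have h5 : ((c * m : ℕ) : ℝ) * X ^ (-(1 / 8) : ℝ) ≤ 1 / 2 := by
      have h6 : 2 * (((c * m : ℕ) : ℝ) * X ^ (-(1 / 8) : ℝ)) ≤ 1 := by
        rw [← mul_assoc]
        exact h4
      generalize ((c * m : ℕ) : ℝ) * X ^ (-(1 / 8) : ℝ) = u at h6 ⊢
      linarith
    calc N * (((c * m : ℕ) : ℝ) * X ^ (-((m : ℝ) + 1)))
        = ((c * m : ℕ) : ℝ) * (N * X ^ (-((m : ℝ) + 1))) := by ring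
      _ ≤ ((c * m : ℕ) : ℝ) * X ^ (-(1 / 8) : ℝ) := mul_le_mul_of_nonneg_left h3 (by positivity)
      _ ≤ 1 / 2 := h5
  refine (base_bound hL hm hc hX hA hAX hN a b ha hb hup).trans ?_
  refine le_trans ?_ h2
  have hY : 0 < (2 * (K : ℝ) + 1) * X := by positivity
  rw [div_le_iff₀ (by positivity), inv_pow, mul_pow]
  have e3 : (X : ℝ) ^ (15 / 16 : ℝ) * X ^ ((m : ℝ) + 1 / 16) = X ^ (m + 1) := by
    rw [← Real.rpow_add hX0, ← Real.rpow_natCast]
    congr 1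
    push_cast
    ring
  have h5 : X ^ (m + 1) ≤ X ^ (15 / 16 : ℝ) * N := by
    rw [← e3]
    apply mul_le_mul_of_nonneg_left hN1 (by positivity)
  have hc1 : 0 < (2 * (K : ℝ) + 1) ^ (m + 1) := by positivity
  have hx1 : 0 < X ^ (m + 1) := by positivity
  have h6 : (2 * (K : ℝ) + 1) ^ (m + 1) * X ^ (15 / 16 : ℝ) *
      (N * (((c * m : ℕ) : ℝ) * ((2 * (K : ℝ) + 1) ^ (m + 1) * X ^ (m + 1))⁻¹))
      = (X ^ (15 / 16 : ℝ) * N / X ^ (m + 1)) * ((c * m : ℕ) : ℝ) := by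
    field_simp
  rw [h6]
  have h7 : 1 ≤ X ^ (15 / 16 : ℝ) * N / X ^ (m + 1) := by
    rw [le_div_iff₀ hx1]
    linarith
  nlinarith

set_option maxHeartbeats 1000000 in
lemma W_succ (i : ℕ) (ih : WProp i) : WProp (i + 1) := by
  intro m c K hm hc hK
  obtain ⟨η0, hη0, ev0⟩ := W_zero m c K hm hc hK
  have hcm : 1 ≤ c * m := Nat.one_le_iff_ne_zero.mpr (Nat.mul_ne_zero (by omega) (by omega))
  obtain ⟨η1, hη1, ev1⟩ := ih (m + 1) (c * m) (K + 1) (by omega) hcm (by omega)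
  set η := min η0 (min (1 / 64) (η1 / 4)) with hη
  have hηpos : 0 < η := by
    rw [hη]
    refine lt_min hη0 (lt_min (by norm_num) (by linarith))
  have hηle0 : η ≤ η0 := min_le_left _ _
  have hηle1 : η ≤ 1 / 64 := (min_le_right _ _).trans (min_le_left _ _)
  have hηle2 : η ≤ η1 / 4 := (min_le_right _ _).trans (min_le_right _ _)
  refine ⟨η, hηpos, ?_⟩
  have e1 := ev_rpow (2 * (((K : ℝ) + 1) * (6 * K))) (show (31 / 16 : ℝ) < 2 - 2 * η by linarith)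
  have e2 := ev_rpow (2 * (2 * ((K : ℝ) + 1))) (show (2 - η1 : ℝ) < 2 - 2 * η by linarith)
  filter_upwards [ev0, ev1, e1, e2, eventually_ge_atTop 16] with X hw0 hw1 h1 h2 hX
  intro L A hA hAX hL N hN1 hN2 a b ha hb
  have hX0 : (0 : ℝ) < X := by linarith
  have hX1 : (1 : ℝ) ≤ X := by linarith
  rcases le_or_gt N (X ^ ((m : ℝ) + 7 / 8 + 3 / 4 * (0 : ℕ))) with hcase | hcase
  · refine (hw0 L A hA hAX hL N hN1 hcase a b ha hb).trans ?_
    apply Real.rpow_le_rpow_of_exponent_le hX1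
    linarith
  have hN : 0 < N := lt_of_lt_of_le (by positivity) hN1
  have ha1 : 1 ≤ a := by
    have : (1 : ℝ) ≤ a := by linarith
    exact_mod_cast this
  -- choice of H
  set H := ⌊X ^ (1 / 4 : ℝ)⌋₊ with hHdef
  have hXq : (2 : ℝ) ≤ X ^ (1 / 4 : ℝ) := by
    have : (2 : ℝ) = 16 ^ (1 / 4 : ℝ) := by
      rw [show (16 : ℝ) = 2 ^ (4 : ℝ) by norm_num, ← Real.rpow_mul (by norm_num)]
      norm_num
    rw [this]
    exact Real.rpow_le_rpow (by norm_num) hX (by norm_num)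
  have hHle : (H : ℝ) ≤ X ^ (1 / 4 : ℝ) := Nat.floor_le (by positivity)
  have hHge : X ^ (1 / 4 : ℝ) / 2 ≤ H := by
    have := Nat.lt_floor_add_one (X ^ (1 / 4 : ℝ))
    rw [← hHdef] at this
    linarith
  have hH1 : 1 ≤ H := by
    have : (1 : ℝ) ≤ H := by linarith
    exact_mod_cast this
  have hXqX : X ^ (1 / 4 : ℝ) ≤ X := by
    calc X ^ (1 / 4 : ℝ) ≤ X ^ (1 : ℝ) := Real.rpow_le_rpow_of_exponent_le hX1 (by norm_num)
      _ = X := Real.rpow_one X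
  have hstep := weyl_step hL N a b H ha1 hH1
  set S := ‖∑ n ∈ Ico a b, ee (N * gS L n)‖ with hS
  have hba : ((b - a : ℕ) : ℝ) ≤ K * X := by
    have : ((b - a : ℕ) : ℝ) ≤ b := by exact_mod_cast Nat.sub_le b a
    linarith
  have hKpos : (1 : ℝ) ≤ K := by exact_mod_cast hK
  -- bound for each differenced sum
  have hSh : ∀ h ∈ Ico 1 H, ‖∑ n ∈ Ico a (b - h), ee ((N * h) * gS (dL h L) n)‖
      ≤ X ^ (1 - η1) + (if (h : ℝ) < X ^ (3 / 16 : ℝ) then K * X else 0) := by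
    intro h hh
    rw [mem_Ico] at hh
    have hhpos : (0 : ℝ) ≤ h := Nat.cast_nonneg h
    split_ifs with hlt
    · refine (norm_sum_ee_le _ _).trans ?_
      rw [Nat.card_Ico]
      have : ((b - h - a : ℕ) : ℝ) ≤ b := by
        have : b - h - a ≤ b := by omega
        exact_mod_cast this
      have h3 : 0 ≤ X ^ (1 - η1) := by positivity
      linarith
    · rw [add_zero]
      push Not at hlt
      have hhH : (h : ℝ) ≤ X ^ (1 / 4 : ℝ) := by
        have : (h : ℝ) ≤ H := by exact_mod_cast hh.2.le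
        linarith
      apply hw1 (dL h L) (A + h) (by linarith)
      · push_cast
        nlinarith
      · exact dL_spec hL hhpos
      · have : X ^ (((m + 1 : ℕ) : ℝ) + 1 / 16)
            = X ^ ((m : ℝ) + 7 / 8 + 3 / 4 * (0 : ℕ)) * X ^ (3 / 16 : ℝ) := by
          rw [← Real.rpow_add hX0]
          congr 1
          push_cast
          ring
        rw [this]
        apply mul_le_mul hcase.le hlt (by positivity) hN.le
      · have : X ^ (((m + 1 : ℕ) : ℝ) + 7 / 8 + 3 / 4 * (i : ℕ))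
            = X ^ ((m : ℝ) + 7 / 8 + 3 / 4 * ((i + 1 : ℕ) : ℝ)) * X ^ (1 / 4 : ℝ) := by
          rw [← Real.rpow_add hX0]
          congr 1
          push_cast
          ring
        rw [this]
        apply mul_le_mul hN2 hhH hhpos (by positivity)
      · exact ha
      · have h4 : ((b - h : ℕ) : ℝ) ≤ b := by exact_mod_cast Nat.sub_le b h
        push_cast
        nlinarith
  have hsum : ∑ h ∈ Ico 1 H, ‖∑ n ∈ Ico a (b - h), ee ((N * h) * gS (dL h L) n)‖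
      ≤ H * X ^ (1 - η1) + X ^ (3 / 16 : ℝ) * (K * X) := by
    refine (sum_le_sum hSh).trans ?_
    rw [sum_add_distrib, sum_const, Nat.card_Ico, nsmul_eq_mul]
    apply add_le_add
    · apply mul_le_mul_of_nonneg_right _ (by positivity)
      exact_mod_cast Nat.sub_le H 1
    · rw [← sum_filter, sum_const, nsmul_eq_mul]
      apply mul_le_mul_of_nonneg_right _ (by positivity)
      have hsub : (Ico 1 H).filter (fun h : ℕ => (h : ℝ) < X ^ (3 / 16 : ℝ))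
          ⊆ Ico 1 (⌊X ^ (3 / 16 : ℝ)⌋₊ + 1) := by
        intro h hh
        rw [mem_filter, mem_Ico] at hh
        rw [mem_Ico]
        refine ⟨hh.1.1, ?_⟩
        have : h ≤ ⌊X ^ (3 / 16 : ℝ)⌋₊ := Nat.le_floor hh.2.le
        omega
      have hc := card_le_card hsub
      rw [Nat.card_Ico, Nat.add_sub_cancel] at hc
      calc (((Ico 1 H).filter (fun h : ℕ => (h : ℝ) < X ^ (3 / 16 : ℝ))).card : ℝ)
          ≤ (⌊X ^ (3 / 16 : ℝ)⌋₊ : ℝ) := by exact_mod_cast hc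
        _ ≤ _ := Nat.floor_le (by positivity)
  have hmain : (H : ℝ) * S ^ 2 ≤ ((K + 1) * X) *
      (K * X + 2 * (H * X ^ (1 - η1) + X ^ (3 / 16 : ℝ) * (K * X))) := by
    refine hstep.trans ?_
    apply mul_le_mul
    · linarith
    · linarith
    · have : 0 ≤ ∑ h ∈ Ico 1 H, ‖∑ n ∈ Ico a (b - h), ee ((N * h) * gS (dL h L) n)‖ :=
        sum_nonneg (fun _ _ => norm_nonneg _)
      exact add_nonneg (Nat.cast_nonneg _) (mul_nonneg zero_le_two this)
    · positivity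
  -- divide by H
  have hHpos : (0 : ℝ) < H := by linarith
  have hS2 : S ^ 2 ≤ X ^ (2 - 2 * η) := by
    have p1 : X ^ (1 / 4 : ℝ) * X ^ (31 / 16 : ℝ) = X * (X ^ (3 / 16 : ℝ) * X) := by
      have : X * (X ^ (3 / 16 : ℝ) * X) = X ^ (1 : ℝ) * (X ^ (3 / 16 : ℝ) * X ^ (1 : ℝ)) := by
        rw [Real.rpow_one]
      rw [this, ← Real.rpow_add hX0, ← Real.rpow_add hX0, ← Real.rpow_add hX0]
      congr 1
      norm_num
    have p2 : X * X ^ (1 - η1) = X ^ (2 - η1) := by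
      have : X * X ^ (1 - η1) = X ^ (1 : ℝ) * X ^ (1 - η1) := by
        rw [Real.rpow_one]
      rw [this, ← Real.rpow_add hX0]
      congr 1
      ring
    have p3 : (1 : ℝ) ≤ X ^ (3 / 16 : ℝ) := Real.one_le_rpow hX1 (by norm_num)
    have p4 : X * X ≤ X * (X ^ (3 / 16 : ℝ) * X) := by
      have : X ≤ X ^ (3 / 16 : ℝ) * X := by nlinarith
      exact mul_le_mul_of_nonneg_left this hX0.le
    -- (K+1)X*(KX + 2 H X^(1-η1) + 2K X^(3/16) X) ≤ H * (...)
    have q1 : ((K + 1) * X) * (K * X + 2 * (H * X ^ (1 - η1) + X ^ (3 / 16 : ℝ) * (K * X)))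
        ≤ H * ((((K : ℝ) + 1) * (6 * K)) * X ^ (31 / 16 : ℝ) + (2 * ((K : ℝ) + 1)) * X ^ (2 - η1)) := by
      have r1 : ((K + 1) * X) * (K * X + 2 * (H * X ^ (1 - η1) + X ^ (3 / 16 : ℝ) * (K * X)))
          = ((K : ℝ) + 1) * K * (X * X) + 2 * ((K : ℝ) + 1) * H * (X * X ^ (1 - η1))
            + 2 * ((K : ℝ) + 1) * K * (X * (X ^ (3 / 16 : ℝ) * X)) := by ring
      have r2 : ((K : ℝ) + 1) * K * (X * X) ≤ ((K : ℝ) + 1) * K * (X * (X ^ (3 / 16 : ℝ) * X)) :=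
        mul_le_mul_of_nonneg_left p4 (by positivity)
      have r3 : X * (X ^ (3 / 16 : ℝ) * X) ≤ 2 * H * X ^ (31 / 16 : ℝ) := by
        rw [← p1]
        apply mul_le_mul_of_nonneg_right _ (by positivity)
        linarith
      have r4 : 3 * (((K : ℝ) + 1) * K) * (X * (X ^ (3 / 16 : ℝ) * X))
          ≤ 3 * (((K : ℝ) + 1) * K) * (2 * H * X ^ (31 / 16 : ℝ)) :=
        mul_le_mul_of_nonneg_left r3 (by positivity)
      rw [r1, p2]
      generalize X * (X ^ (3 / 16 : ℝ) * X) = T at r2 r4 ⊢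
      generalize X ^ (31 / 16 : ℝ) = Y at r4 ⊢
      generalize X ^ (2 - η1) = Z
      calc ((K : ℝ) + 1) * K * (X * X) + 2 * ((K : ℝ) + 1) * H * Z + 2 * ((K : ℝ) + 1) * K * T
          ≤ ((K : ℝ) + 1) * K * T + 2 * ((K : ℝ) + 1) * H * Z + 2 * ((K : ℝ) + 1) * K * T := by
            linarith
        _ = 3 * (((K : ℝ) + 1) * K) * T + 2 * ((K : ℝ) + 1) * H * Z := by ring
        _ ≤ 3 * (((K : ℝ) + 1) * K) * (2 * H * Y) + 2 * ((K : ℝ) + 1) * H * Z := by linarith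
        _ = _ := by ring
    have q2 : (H : ℝ) * S ^ 2 ≤ H * ((((K : ℝ) + 1) * (6 * K)) * X ^ (31 / 16 : ℝ)
        + (2 * ((K : ℝ) + 1)) * X ^ (2 - η1)) := hmain.trans q1
    have q3 := le_of_mul_le_mul_left q2 hHpos
    linarith
  have hfin : S ^ 2 ≤ (X ^ (1 - η)) ^ 2 := by
    rw [← Real.rpow_natCast (X ^ (1 - η)) 2, ← Real.rpow_mul hX0.le]
    have : (1 - η) * ((2 : ℕ) : ℝ) = 2 - 2 * η := by push_cast; ring
    rw [this]
    exact hS2
  exact le_of_sq_le_sq hfin (by positivity)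

end Pool.Agent.H33
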